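import Mathlib

/-!
# Cocycles with values in an induced module
-/

set_option autoImplicit false

namespace Pool.Agent.H40.SHN

section

variable {D C M : Type*} [Group D] [AddCommGroup M] (a : D → C → C) (b : D → M →+ M)

/-- a cocycle with values in the functions on `C` which is trivial on the stabilizers is trivial -/
theorem orbit_cob (ha1 : ∀ c, a 1 c = c) (ha : ∀ d d' c, a (d * d') c = a d (a d' c))
    (hb : ∀ d d' m, b (d * d') m = b d (b d' m))
    (φ : D → C → M) (hφ : ∀ d d' c, φ (d * d') c = φ d (a d' c) + b d (φ d' c))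
    (hst : ∀ c, ∃ Q : M, ∀ d, a d c = c → φ d c = b d Q - Q) :
    ∃ P : C → M, ∀ d c, φ d c = b d (P c) - P (a d c) := by
  classical
  let st : Setoid C :=
    { r := fun c c' => ∃ d, a d c = c'
      iseqv :=
        { refl := fun c => ⟨1, ha1 c⟩
          symm := by
            rintro c c' ⟨d, rfl⟩
            exact ⟨d⁻¹, by rw [← ha, inv_mul_cancel, ha1]⟩
          trans := by
            rintro c c' c'' ⟨d, rfl⟩ ⟨e, rfl⟩
            exact ⟨e * d, ha _ _ _⟩ } }
  let rep : C → C := fun c => (Quotient.mk st c).out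
  have hrep : ∀ c, ∃ d, a d (rep c) = c := fun c => Quotient.exact (Quotient.out_eq (Quotient.mk st c))
  have hrep' : ∀ d c, rep (a d c) = rep c := by
    intro d c
    have : Quotient.mk st (a d c) = Quotient.mk st c := Quotient.sound (st.symm ⟨d, rfl⟩)
    simp only [rep, this]
  choose e he using hrep
  choose Q hQ using hst
  refine ⟨fun c => b (e c) (Q (rep c)) - φ (e c) (rep c), fun d c => ?_⟩
  simp only [hrep']
  set c₀ := rep c with hc₀
  have he' : a (e (a d c)) c₀ = a d c := by
    have := he (a d c)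
    rwa [hrep'] at this
  set g := e (a d c) with hg
  set g₀ := g⁻¹ * (d * e c) with hg₀
  have h0 : a g₀ c₀ = c₀ := by
    rw [hg₀, ha, ha, he, ← he', ← ha, inv_mul_cancel, ha1]
  have h1 : d * e c = g * g₀ := by rw [hg₀, mul_inv_cancel_left]
  have h2 := hφ d (e c) c₀
  rw [he] at h2
  have h3 := hφ g g₀ c₀
  rw [h0, hQ c₀ g₀ h0, map_sub, ← hb, ← h1, h2] at h3
  rw [map_sub, ← hb]
  have : φ d c = φ g c₀ + (b (d * e c) (Q c₀) - b g (Q c₀)) - b d (φ (e c) c₀) := by
    rw [← h3, add_sub_cancel_right]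
  rw [this]
  abel

end

end Pool.Agent.H40.SHN
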