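import Mathlib
import Pool.Graph.R_pool_sql_team_seeded_3997aac3.Q7.CE.Stm

/-!
# The points of `y² + y = x³` as a functor on all fields
-/

set_option autoImplicit false

namespace Pool.Agent.H40.SHN

open WeierstrassCurve
open Pool.Agent.Q7.CE (ED)
open Pool.Agent.TH841.SH.D (Coch Pt act Gal IsCoc IsCob LocTriv cob)

section

variable {L M N : Type} [Field L] [Field M] [Field N]

/-- the points of `y² + y = x³` over `L` -/
def EP (L : Type) [Field L] : Type := (ED (1 : L)).toAffine.Point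

noncomputable instance EP.group (L : Type) [Field L] : AddCommGroup (EP L) :=
  @Affine.Point.instAddCommGroup L _ (ED (1 : L)).toAffine (Classical.decEq L)

lemma ED_map (φ : L →+* M) : (ED (1 : L)).map φ = ED (1 : M) := by
  ext <;> simp [ED, WeierstrassCurve.map]

lemma tr_ex [DecidableEq L] {A B : WeierstrassCurve L} (h : A = B) :
    ∃ Φ : A.toAffine.Point ≃+ B.toAffine.Point, ∀ (x y : L) (hx : A.toAffine.Nonsingular x y),
      ∃ hx' : B.toAffine.Nonsingular x y, Φ (.some x y hx) = .some x y hx' := by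
  subst h
  exact ⟨AddEquiv.refl _, fun x y hx => ⟨hx, rfl⟩⟩

/-- the point with the coordinates `x`, `y` -/
def mk {x y : L} (h : (ED (1 : L)).toAffine.Nonsingular x y) : EP L := Affine.Point.some x y h

lemma EP_cases (P : EP L) : P = 0 ∨ ∃ (x y : L) (h : (ED (1 : L)).toAffine.Nonsingular x y),
    P = mk h := by
  rcases P with _ | ⟨x, y, h⟩
  · exact Or.inl rfl
  · exact Or.inr ⟨x, y, h, rfl⟩

lemma mk_ext {x y x' y' : L} {h : (ED (1 : L)).toAffine.Nonsingular x y}
    {h' : (ED (1 : L)).toAffine.Nonsingular x' y'} : mk h = mk h' ↔ x = x' ∧ y = y' := by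
  constructor
  · intro e
    exact (Affine.Point.some.injEq _ _ _ _ _ _).mp e
  · rintro ⟨rfl, rfl⟩
    rfl

lemma mk_ne {x y : L} {h : (ED (1 : L)).toAffine.Nonsingular x y} : mk h ≠ 0 :=
  Affine.Point.some_ne_zero _

lemma pm_ex (φ : L →+* M) : ∃ Φ : EP L →+ EP M, ∀ (x y : L)
    (h : (ED (1 : L)).toAffine.Nonsingular x y),
    ∃ h' : (ED (1 : M)).toAffine.Nonsingular (φ x) (φ y), Φ (mk h) = mk h' := by
  let _ := φ.toAlgebra
  let _ := Classical.decEq L
  let _ := Classical.decEq M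
  obtain ⟨Φ₁, h₁⟩ := tr_ex (L := L) (show ED (1 : L) = (ED (1 : L)).baseChange L from
    (ED_map (algebraMap L L)).symm)
  obtain ⟨Φ₂, h₂⟩ := tr_ex (L := M) (show (ED (1 : L)).baseChange M = ED (1 : M) from
    ED_map (algebraMap L M))
  refine ⟨(Φ₂.toAddMonoidHom.comp (Affine.Point.map (W' := ED (1 : L)) (Algebra.ofId L M))).comp
    Φ₁.toAddMonoidHom, fun x y h => ?_⟩
  obtain ⟨h3, e3⟩ := h₁ x y h
  have h4 := (Affine.baseChange_nonsingular (ED (1 : L)) (Algebra.ofId L M).injective ..).mpr h3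
  obtain ⟨h5, e5⟩ := h₂ _ _ h4
  refine ⟨h5, ?_⟩
  change Φ₂ (Affine.Point.map (Algebra.ofId L M) (Φ₁ (.some x y h))) = _
  rw [e3]
  exact e5

/-- the map on the points given by a homomorphism of fields -/
noncomputable def pm (φ : L →+* M) : EP L →+ EP M := (pm_ex φ).choose

lemma pm_mk (φ : L →+* M) {x y : L} (h : (ED (1 : L)).toAffine.Nonsingular x y) :
    ∃ h' : (ED (1 : M)).toAffine.Nonsingular (φ x) (φ y), pm φ (mk h) = mk h' :=
  (pm_ex φ).choose_spec x y h

lemma pm_pm (φ : L →+* M) (ψ : M →+* N) (P : EP L) : pm ψ (pm φ P) = pm (ψ.comp φ) P := by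
  rcases EP_cases P with rfl | ⟨x, y, h, rfl⟩
  · rw [map_zero, map_zero, map_zero]
  · obtain ⟨h1, e1⟩ := pm_mk φ h
    obtain ⟨h2, e2⟩ := pm_mk ψ h1
    obtain ⟨h3, e3⟩ := pm_mk (ψ.comp φ) h
    rw [e1, e2, e3]

lemma pm_id (P : EP L) : pm (RingHom.id L) P = P := by
  rcases EP_cases P with rfl | ⟨x, y, h, rfl⟩
  · rw [map_zero]
  · obtain ⟨h1, e1⟩ := pm_mk (RingHom.id L) h
    exact e1

lemma pm_inj (φ : L →+* M) : Function.Injective (pm φ) := by
  rw [injective_iff_map_eq_zero]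
  intro P hP
  rcases EP_cases P with rfl | ⟨x, y, h, rfl⟩
  · rfl
  · obtain ⟨h1, e1⟩ := pm_mk φ h
    rw [e1] at hP
    exact absurd hP mk_ne

end

section

variable (k L : Type) [Field k] [Field L] [Algebra k L]

lemma cv_ex : ∃ Φ : Pt (ED (1 : k)) L ≃+ EP L, ∀ (x y : L)
    (h : ((ED (1 : k)).baseChange L).toAffine.Nonsingular x y),
    ∃ h' : (ED (1 : L)).toAffine.Nonsingular x y, Φ (Affine.Point.some x y h) = mk h' :=
  @tr_ex L _ (Classical.decEq L) _ _ (ED_map (algebraMap k L))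

/-- the points do not depend on the field of definition -/
noncomputable def cv : Pt (ED (1 : k)) L ≃+ EP L := (cv_ex k L).choose

variable {k L}

lemma cv_some {x y : L} (h : ((ED (1 : k)).baseChange L).toAffine.Nonsingular x y) :
    ∃ h' : (ED (1 : L)).toAffine.Nonsingular x y, cv k L (Affine.Point.some x y h) = mk h' :=
  (cv_ex k L).choose_spec x y h

lemma cv_act {M : Type} [Field M] [Algebra k M] (φ : L →ₐ[k] M) (P : Pt (ED (1 : k)) L) :
    cv k M (act (ED (1 : k)) φ P) = pm (φ : L →+* M) (cv k L P) := by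
  rcases P with _ | ⟨x, y, h⟩
  · change cv k M (act (ED (1 : k)) φ 0) = pm (φ : L →+* M) (cv k L 0)
    rw [map_zero, map_zero, map_zero, map_zero]
  · obtain ⟨h1, e1⟩ := cv_some h
    rw [e1]
    obtain ⟨h2, e2⟩ := pm_mk (φ : L →+* M) h1
    rw [e2]
    have h3 : ((ED (1 : k)).baseChange M).toAffine.Nonsingular (φ x) (φ y) :=
      (Affine.baseChange_nonsingular (ED (1 : k)) φ.injective ..).mpr h
    obtain ⟨h4, e4⟩ := cv_some (k := k) h3
    have e5 : act (ED (1 : k)) φ (Affine.Point.some x y h) = Affine.Point.some (φ x) (φ y) h3 := rfl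
    rw [e5, e4]
    rfl

end

end Pool.Agent.H40.SHN
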