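import Mathlib
import Pool.Agent.H40.SHN.Pts
import Pool.Agent.H40.SHN.Orb

/-!
# Cocycles of groups of automorphisms of a field with values in the points
-/

set_option autoImplicit false

namespace Pool.Agent.H40.SHN

section

variable {Λ Λ' Ω Ω' : Type} [Field Λ] [Field Λ'] [Field Ω] [Field Ω']

/-- the action of an automorphism on the points -/
noncomputable def pa (x : RingAut Λ) : EP Λ →+ EP Λ := pm (RingEquiv.toRingHom x)

lemma pa_mul (x y : RingAut Λ) (P : EP Λ) : pa (x * y) P = pa x (pa y P) := by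
  unfold pa
  rw [pm_pm]
  rfl

lemma pa_one (P : EP Λ) : pa (1 : RingAut Λ) P = P := pm_id P

/-- the function `u` is a continuous cocycle on `H` -/
structure Coc (H : Subgroup (RingAut Λ)) (u : RingAut Λ → EP Λ) : Prop where
  mul : ∀ x ∈ H, ∀ y ∈ H, u (x * y) = u x + pa x (u y)
  lc : ∀ x ∈ H, ∃ S : Finset Λ, ∀ y ∈ H, (∀ a ∈ S, y a = x a) → u y = u x

/-- the function `u` is a coboundary on `H` -/
def Cob (H : Subgroup (RingAut Λ)) (u : RingAut Λ → EP Λ) : Prop :=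
  ∃ P, ∀ x ∈ H, u x = pa x P - P

/-- the function `u` becomes a coboundary on the automorphisms in `B` -/
def LT (H : Subgroup (RingAut Λ)) (u : RingAut Λ → EP Λ) (ι : Λ →+* Ω)
    (B : Subgroup (RingAut Ω)) : Prop :=
  ∃ P : EP Ω, ∀ τ ∈ B, ∀ x ∈ H, (∀ a, τ (ι a) = ι (x a)) → pm ι (u x) = pa τ P - P

/-- the conjugate automorphism -/
def cj (e : Λ ≃+* Λ') (x : RingAut Λ') : RingAut Λ := (e.trans x).trans e.symm

lemma cj_apply (e : Λ ≃+* Λ') (x : RingAut Λ') (a : Λ) : e (cj e x a) = x (e a) :=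
  e.apply_symm_apply _

lemma cj_mul (e : Λ ≃+* Λ') (x y : RingAut Λ') : cj e (x * y) = cj e x * cj e y := by
  apply RingEquiv.ext
  intro a
  apply e.injective
  rw [cj_apply, RingAut.mul_apply, RingAut.mul_apply, cj_apply, cj_apply]

lemma pm_cj (e : Λ ≃+* Λ') (x : RingAut Λ') (P : EP Λ) :
    pm (e : Λ →+* Λ') (pa (cj e x) P) = pa x (pm (e : Λ →+* Λ') P) := by
  unfold pa
  rw [pm_pm, pm_pm]
  congr 1
  congr 1
  refine RingHom.ext fun a => cj_apply e x a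

/-- the transported function -/
noncomputable def tw (e : Λ ≃+* Λ') (u : RingAut Λ → EP Λ) : RingAut Λ' → EP Λ' :=
  fun x => pm (e : Λ →+* Λ') (u (cj e x))

lemma tw_apply (e : Λ ≃+* Λ') (u : RingAut Λ → EP Λ) (x : RingAut Λ') :
    tw e u x = pm (e : Λ →+* Λ') (u (cj e x)) := rfl

variable {H : Subgroup (RingAut Λ)} {H' : Subgroup (RingAut Λ')} {u u' : RingAut Λ → EP Λ}

theorem Coc.tw {e : Λ ≃+* Λ'} (h : Coc H u) (hH : ∀ x ∈ H', cj e x ∈ H) : Coc H' (tw e u) := by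
  classical
  refine ⟨fun x hx y hy => ?_, fun x hx => ?_⟩
  · rw [tw_apply, tw_apply, tw_apply, cj_mul, h.mul _ (hH x hx) _ (hH y hy), map_add, pm_cj]
  · obtain ⟨S, hS⟩ := h.lc _ (hH x hx)
    refine ⟨S.image e, fun y hy hyx => ?_⟩
    rw [tw_apply, tw_apply, hS _ (hH y hy) fun a ha => ?_]
    apply e.injective
    rw [cj_apply, cj_apply]
    exact hyx _ (Finset.mem_image_of_mem _ ha)

theorem Cob.tw {e : Λ ≃+* Λ'} (h : Cob H u) (hH : ∀ x ∈ H', cj e x ∈ H) : Cob H' (tw e u) := by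
  obtain ⟨P, hP⟩ := h
  refine ⟨pm (e : Λ →+* Λ') P, fun x hx => ?_⟩
  rw [tw_apply, hP _ (hH x hx), map_sub, pm_cj]

theorem LT.tw {e : Λ ≃+* Λ'} {ι : Λ' →+* Ω} {B : Subgroup (RingAut Ω)}
    (h : LT H u (ι.comp (e : Λ →+* Λ')) B) (hH : ∀ x ∈ H', cj e x ∈ H) : LT H' (tw e u) ι B := by
  obtain ⟨P, hP⟩ := h
  refine ⟨P, fun τ hτ x hx hx' => ?_⟩
  rw [tw_apply, pm_pm, hP τ hτ _ (hH x hx) fun a => ?_]
  change τ (ι (e a)) = ι (e (cj e x a))
  rw [cj_apply, hx']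

/-- the converse of `LT.tw` -/
theorem LT.tw_symm {e : Λ ≃+* Λ'} {ι : Λ' →+* Ω} {B : Subgroup (RingAut Ω)}
    (h : LT H' (SHN.tw e u) ι B) (hH : ∀ x ∈ H, cj e.symm x ∈ H') :
    LT H u (ι.comp (e : Λ →+* Λ')) B := by
  obtain ⟨P, hP⟩ := h
  refine ⟨P, fun τ hτ x hx hx' => ?_⟩
  have h1 := hP τ hτ _ (hH x hx) fun a => by
    have h2 := hx' (e.symm a)
    change τ (ι (e (e.symm a))) = ι (e (x (e.symm a))) at h2
    rw [e.apply_symm_apply] at h2
    exact h2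
  rw [tw_apply, pm_pm] at h1
  have h3 : cj e (cj e.symm x) = x := by
    apply RingEquiv.ext
    intro a
    apply e.injective
    rw [cj_apply]
    change e.symm.symm (x (e.symm (e a))) = _
    rw [e.symm_apply_apply]
    rfl
  rw [h3] at h1
  exact h1

/-- change of the field `Ω` -/
theorem LT.map {θ : Ω ≃+* Ω'} {ι : Λ →+* Ω} {B : Subgroup (RingAut Ω)} {B' : Subgroup (RingAut Ω')}
    (h : LT H u ι B) (hB : ∀ τ ∈ B', cj θ τ ∈ B) : LT H u ((θ : Ω →+* Ω').comp ι) B' := by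
  obtain ⟨P, hP⟩ := h
  refine ⟨pm (θ : Ω →+* Ω') P, fun τ hτ x hx hx' => ?_⟩
  rw [← pm_pm, hP _ (hB τ hτ) x hx fun a => ?_, map_sub, pm_cj]
  apply θ.injective
  rw [cj_apply]
  exact hx' a

/-- change of the field `Ω`, only the automorphisms that act on the image are used -/
theorem LT.map' {θ : Ω ≃+* Ω'} {ι : Λ →+* Ω} {B : Subgroup (RingAut Ω)} {B' : Subgroup (RingAut Ω')}
    (h : LT H u ι B)
    (hB : ∀ τ ∈ B', ∀ x ∈ H, (∀ a, τ (θ (ι a)) = θ (ι (x a))) → cj θ τ ∈ B) :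
    LT H u ((θ : Ω →+* Ω').comp ι) B' := by
  obtain ⟨P, hP⟩ := h
  refine ⟨pm (θ : Ω →+* Ω') P, fun τ hτ x hx hx' => ?_⟩
  rw [← pm_pm, hP _ (hB τ hτ x hx hx') x hx fun a => ?_, map_sub, pm_cj]
  apply θ.injective
  rw [cj_apply]
  exact hx' a

theorem LT.mono {ι : Λ →+* Ω} {B B' : Subgroup (RingAut Ω)} (h : LT H u ι B) (hB : B' ≤ B) :
    LT H u ι B' := by
  obtain ⟨P, hP⟩ := h
  exact ⟨P, fun τ hτ => hP τ (hB hτ)⟩

theorem LT.congr {ι : Λ →+* Ω} {B : Subgroup (RingAut Ω)} (h : LT H u ι B)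
    (hu : ∀ x ∈ H, u' x = u x) : LT H u' ι B := by
  obtain ⟨P, hP⟩ := h
  exact ⟨P, fun τ hτ x hx hx' => by rw [hu x hx, hP τ hτ x hx hx']⟩

theorem Coc.congr (h : Coc H u) (hu : ∀ x ∈ H, u' x = u x) : Coc H u' := by
  refine ⟨fun x hx y hy => ?_, fun x hx => ?_⟩
  · rw [hu _ (H.mul_mem hx hy), hu x hx, hu y hy, h.mul x hx y hy]
  · obtain ⟨S, hS⟩ := h.lc x hx
    exact ⟨S, fun y hy hyx => by rw [hu y hy, hu x hx, hS y hy hyx]⟩

theorem Cob.congr (h : Cob H u) (hu : ∀ x ∈ H, u' x = u x) : Cob H u' := by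
  obtain ⟨P, hP⟩ := h
  exact ⟨P, fun x hx => by rw [hu x hx, hP x hx]⟩

theorem Coc.one (h : Coc H u) : u 1 = 0 := by
  have := h.mul 1 H.one_mem 1 H.one_mem
  rw [mul_one, pa_one] at this
  exact left_eq_add.1 this

/-- the twist by an element of the group -/
theorem Coc.tw_self (h : Coc H u) {s : RingAut Λ} (hs : s ∈ H)
    (hH : ∀ x ∈ H, cj s x ∈ H) : Cob H (SHN.tw s u - u) := by
  refine ⟨u s, fun x hx => ?_⟩
  rw [Pi.sub_apply, tw_apply]
  have h1 : s * cj s x = x * s := RingEquiv.ext fun a => cj_apply s x a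
  have h2 := h.mul s hs (cj s x) (hH x hx)
  rw [h1, h.mul x hx s hs] at h2
  have h3 : pm (s : Λ →+* Λ) (u (cj s x)) = pa s (u (cj s x)) := rfl
  rw [h3, eq_sub_of_add_eq' h2.symm]
  abel

end

end Pool.Agent.H40.SHN
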