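import Mathlib
import Pool.Agent.H40.SHN.Coh

/-!
# The corestriction of cocycles
-/

set_option autoImplicit false

namespace Pool.Agent.H40.SHN

section

variable {Λ Ω : Type} [Field Λ] [Field Ω]

/-- representatives of the cosets of a normal subgroup -/
structure Reps (G H : Subgroup (RingAut Λ)) (C : Type) where
  /-- the representatives -/
  r : C → RingAut Λ
  hr : ∀ c, r c ∈ G
  /-- the action on the cosets -/
  a : RingAut Λ → C → C
  mem : ∀ g ∈ G, ∀ c, (r (a g c))⁻¹ * g * r c ∈ H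
  uniq : ∀ g ∈ G, ∀ c c', (r c')⁻¹ * g * r c ∈ H → c' = a g c
  le : H ≤ G
  nrm : ∀ g ∈ G, ∀ x ∈ H, g⁻¹ * x * g ∈ H
  lc : ∀ g ∈ G, ∃ S : Finset Λ, ∀ g' ∈ G, (∀ x ∈ S, g' x = g x) → a g' = a g

variable {G H : Subgroup (RingAut Λ)} {C : Type} (R : Reps G H C)

namespace Reps

lemma a_one (c : C) : R.a 1 c = c := (R.uniq 1 G.one_mem c c (by
  rw [mul_one, inv_mul_cancel]
  exact H.one_mem)).symm

lemma a_mul {g g' : RingAut Λ} (hg : g ∈ G) (hg' : g' ∈ G) (c : C) :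
    R.a (g * g') c = R.a g (R.a g' c) := by
  refine (R.uniq _ (G.mul_mem hg hg') _ _ ?_).symm
  have h := H.mul_mem (R.mem g hg (R.a g' c)) (R.mem g' hg' c)
  have e : (R.r (R.a g (R.a g' c)))⁻¹ * g * R.r (R.a g' c) * ((R.r (R.a g' c))⁻¹ * g' * R.r c) =
      (R.r (R.a g (R.a g' c)))⁻¹ * (g * g') * R.r c := by group
  rwa [e] at h

/-- a coset is fixed only by the subgroup -/
lemma mem_of_fix {g : RingAut Λ} (hg : g ∈ G) {c : C} (h : R.a g c = c) : g ∈ H := by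
  have h1 := R.mem g hg c
  rw [h] at h1
  have h2 := R.nrm _ (G.inv_mem (R.hr c)) _ h1
  have e : ((R.r c)⁻¹)⁻¹ * ((R.r c)⁻¹ * g * R.r c) * (R.r c)⁻¹ = g := by group
  rwa [e] at h2

lemma fix {x : RingAut Λ} (hx : x ∈ H) (c : C) : R.a x c = c :=
  (R.uniq x (R.le hx) c c (R.nrm _ (R.hr c) x hx)).symm

/-- the components of the corestriction -/
noncomputable def ph (u : RingAut Λ → EP Λ) (g : RingAut Λ) (c : C) : EP Λ :=
  pa (R.r (R.a g c)) (u ((R.r (R.a g c))⁻¹ * g * R.r c))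

lemma ph_mul {u : RingAut Λ → EP Λ} (hu : Coc H u) {g g' : RingAut Λ} (hg : g ∈ G) (hg' : g' ∈ G)
    (c : C) : R.ph u (g * g') c = R.ph u g (R.a g' c) + pa g (R.ph u g' c) := by
  unfold ph
  rw [R.a_mul hg hg']
  have e : (R.r (R.a g (R.a g' c)))⁻¹ * (g * g') * R.r c =
      (R.r (R.a g (R.a g' c)))⁻¹ * g * R.r (R.a g' c) * ((R.r (R.a g' c))⁻¹ * g' * R.r c) := by
    group
  rw [e, hu.mul _ (R.mem g hg _) _ (R.mem g' hg' c), map_add, ← pa_mul, ← pa_mul]
  congr 3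
  group

variable [Fintype C]

/-- the corestriction -/
noncomputable def cor (u : RingAut Λ → EP Λ) : RingAut Λ → EP Λ := fun g => ∑ c, R.ph u g c

lemma cor_apply (u : RingAut Λ → EP Λ) (g : RingAut Λ) : R.cor u g = ∑ c, R.ph u g c := rfl

/-- the restriction of the corestriction -/
lemma cor_res (u : RingAut Λ → EP Λ) {x : RingAut Λ} (hx : x ∈ H) :
    R.cor u x = ∑ c, tw (R.r c) u x := by
  rw [cor_apply]
  refine Finset.sum_congr rfl fun c _ => ?_
  unfold ph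
  rw [R.fix hx, tw_apply]
  have e : cj (R.r c) x = (R.r c)⁻¹ * x * R.r c := rfl
  rw [e]
  rfl

lemma sum_a {M : Type*} [AddCommMonoid M] (f : C → M) {g : RingAut Λ} (hg : g ∈ G) :
    ∑ c, f (R.a g c) = ∑ c, f c := by
  refine Fintype.sum_bijective (R.a g) ?_ _ _ fun c => rfl
  rw [Function.bijective_iff_has_inverse]
  refine ⟨R.a g⁻¹, fun c => ?_, fun c => ?_⟩
  · rw [← R.a_mul (G.inv_mem hg) hg, inv_mul_cancel, R.a_one]
  · rw [← R.a_mul hg (G.inv_mem hg), mul_inv_cancel, R.a_one]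

theorem coc_cor {u : RingAut Λ → EP Λ} (hu : Coc H u) : Coc G (R.cor u) := by
  classical
  refine ⟨fun g hg g' hg' => ?_, fun g hg => ?_⟩
  · rw [cor_apply, cor_apply, cor_apply, map_sum, ← R.sum_a (R.ph u g) hg', ← Finset.sum_add_distrib]
    exact Finset.sum_congr rfl fun c _ => R.ph_mul hu hg hg' c
  · obtain ⟨S, hS⟩ := R.lc g hg
    choose T hT using fun c : C => hu.lc _ (R.mem g hg c)
    refine ⟨S ∪ Finset.univ.biUnion fun c => (T c).image (R.r c), fun g' hg' h => ?_⟩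
    have ha := hS g' hg' fun x hx => h x (Finset.mem_union_left _ hx)
    rw [cor_apply, cor_apply]
    refine Finset.sum_congr rfl fun c _ => ?_
    unfold ph
    rw [ha, hT c _ (by rw [← ha]; exact R.mem g' hg' c) fun x hx => ?_]
    rw [RingAut.mul_apply, RingAut.mul_apply, RingAut.mul_apply, RingAut.mul_apply, h]
    refine Finset.mem_union_right _ (Finset.mem_biUnion.2 ⟨c, Finset.mem_univ _, ?_⟩)
    exact Finset.mem_image_of_mem _ hx

theorem cob_cor {u : RingAut Λ → EP Λ} (hu : Cob H u) : Cob G (R.cor u) := by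
  obtain ⟨P, hP⟩ := hu
  refine ⟨∑ c, pa (R.r c) P, fun g hg => ?_⟩
  rw [cor_apply, map_sum, ← R.sum_a (fun c => pa (R.r c) P) hg, ← Finset.sum_sub_distrib]
  refine Finset.sum_congr rfl fun c _ => ?_
  unfold ph
  rw [hP _ (R.mem g hg c), map_sub, ← pa_mul, ← pa_mul]
  congr 2
  congr 1
  group

lemma cor_smul (n : ℕ) (u : RingAut Λ → EP Λ) : R.cor (n • u) = n • R.cor u := by
  funext g
  rw [cor_apply, Pi.smul_apply, cor_apply, Finset.smul_sum]
  refine Finset.sum_congr rfl fun c _ => ?_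
  unfold ph
  rw [Pi.smul_apply, map_nsmul]

/-- **the corestriction is locally trivial** -/
theorem lt_cor {u : RingAut Λ → EP Λ} (hu : Coc H u) {ι : Λ →+* Ω} {B : Subgroup (RingAut Ω)}
    (h : ∀ c, LT H (tw (R.r c) u) ι B) : LT G (R.cor u) ι B := by
  let D : Subgroup (RingAut Ω × RingAut Λ) :=
    { carrier := {d | d.1 ∈ B ∧ d.2 ∈ G ∧ ∀ a, d.1 (ι a) = ι (d.2 a)}
      one_mem' := ⟨B.one_mem, G.one_mem, fun a => rfl⟩
      mul_mem' := by
        rintro d d' ⟨h1, h2, h3⟩ ⟨h1', h2', h3'⟩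
        refine ⟨B.mul_mem h1 h1', G.mul_mem h2 h2', fun a => ?_⟩
        change d.1 (d'.1 (ι a)) = ι (d.2 (d'.2 a))
        rw [h3', h3]
      inv_mem' := by
        rintro d ⟨h1, h2, h3⟩
        refine ⟨B.inv_mem h1, G.inv_mem h2, fun a => ?_⟩
        apply (d.1 : Ω ≃+* Ω).injective
        change d.1 (d.1.symm (ι a)) = d.1 (ι (d.2.symm a))
        rw [h3]
        exact ((d.1 : Ω ≃+* Ω).apply_symm_apply _).trans
          (congrArg ι ((d.2 : Λ ≃+* Λ).apply_symm_apply a).symm) }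
  have hpm : ∀ d : D, ∀ P : EP Λ, pm ι (pa d.1.2 P) = pa d.1.1 (pm ι P) := by
    intro d P
    unfold pa
    rw [pm_pm, pm_pm]
    congr 1
    congr 1
    refine RingHom.ext fun a => (d.2.2.2 a).symm
  obtain ⟨P, hP⟩ := orbit_cob (D := D) (C := C) (M := EP Ω) (fun d c => R.a d.1.2 c)
    (fun d => pa d.1.1) (fun c => R.a_one c)
    (fun d d' c => R.a_mul d.2.2.1 d'.2.2.1 c) (fun d d' m => pa_mul _ _ m)
    (fun d c => pm ι (R.ph u d.1.2 c))
    (fun d d' c => by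
      have := R.ph_mul hu d.2.2.1 d'.2.2.1 c
      change pm ι (R.ph u (d.1.2 * d'.1.2) c) = _
      rw [this, map_add, hpm])
    (fun c => by
      obtain ⟨Q, hQ⟩ := h c
      refine ⟨Q, fun d hd => ?_⟩
      have hd' : R.a d.1.2 c = c := hd
      have hm := R.mem_of_fix d.2.2.1 hd'
      have := hQ d.1.1 d.2.1 d.1.2 hm d.2.2.2
      rw [← this]
      congr 1
      unfold ph
      rw [hd']
      rfl)
  refine ⟨∑ c, P c, fun τ hτ g hg hgτ => ?_⟩
  have hd : (τ, g) ∈ D := ⟨hτ, hg, hgτ⟩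
  rw [cor_apply, map_sum, map_sum, ← R.sum_a P hg, ← Finset.sum_sub_distrib]
  exact Finset.sum_congr rfl fun c _ => hP ⟨(τ, g), hd⟩ c

end Reps

end

end Pool.Agent.H40.SHN
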