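import Mathlib
import Pool.Graph.R_seed8.TH115.TC.Compl

/-!
# The completions of an extension of number fields
-/

set_option autoImplicit false

namespace Pool.Agent.H40.SHN

open IsDedekindDomain NumberField Pool.Agent.TH115.GD
open scoped Valued

section

variable {F M : Type} [Field F] [NumberField F] [Field M] [NumberField M]
  (v : HeightOneSpectrum (𝓞 F)) (w : HeightOneSpectrum (𝓞 M)) (f : F →+* M)
  (h1 : ∀ x, v.valuation F x ≤ 1 → w.valuation M (f x) ≤ 1)
  (h2 : ∀ x, v.valuation F x < 1 → w.valuation M (f x) < 1)

include h1 h2 in
/-- the completion above is generated by the completion below and the field -/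
theorem compl_ex : ∃ j : v.adicCompletion F →+* w.adicCompletion M, j.Finite ∧
    (∀ x : F, j (algebraMap F (v.adicCompletion F) x) = algebraMap M (w.adicCompletion M) (f x)) ∧
    ∀ y : w.adicCompletion M, ∃ (n : ℕ) (a : Fin n → v.adicCompletion F) (b : Fin n → M),
      y = ∑ i, j (a i) * algebraMap M (w.adicCompletion M) (b i) := by
  have hc := wf_cont v w f h1 h2
  set j0 := UniformSpace.Completion.extensionHom (wf v w f) hc with hj0
  set j : v.adicCompletion F →+* w.adicCompletion M :=
    j0.comp (HeightOneSpectrum.adicCompletion.equiv F v).toRingHom with hj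
  have hjc : Continuous j :=
    (UniformSpace.Completion.continuous_extension (f := wf v w f)).comp
      (HeightOneSpectrum.adicCompletion.continuous_toCompletion F v)
  have hjx : ∀ x : F, j (algebraMap F (v.adicCompletion F) x) =
      algebraMap M (w.adicCompletion M) (f x) := by
    intro x
    exact UniformSpace.Completion.extensionHom_coe (wf v w f) hc (WithVal.toVal _ x)
  let _ : Algebra F M := f.toAlgebra
  have hfin : Module.Finite F M := Module.Finite.of_restrictScalars_finite ℚ F M
  let B := Module.finBasis F M
  let _ : Algebra (v.adicCompletion F) (w.adicCompletion M) := j.toAlgebra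
  have : ContinuousSMul (v.adicCompletion F) (w.adicCompletion M) :=
    ⟨(hjc.comp continuous_fst).mul continuous_snd⟩
  set S : Submodule (v.adicCompletion F) (w.adicCompletion M) :=
    Submodule.span (v.adicCompletion F) (Set.range fun i => algebraMap M (w.adicCompletion M) (B i))
    with hS
  have hSf : FiniteDimensional (v.adicCompletion F) S :=
    FiniteDimensional.span_of_finite _ (Set.finite_range _)
  have hcl : IsClosed (S : Set (w.adicCompletion M)) := S.closed_of_finiteDimensional
  have hM : ∀ x : M, algebraMap M (w.adicCompletion M) x ∈ S := by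
    intro x
    rw [← B.sum_repr x, map_sum]
    refine Submodule.sum_mem _ fun i _ => ?_
    have e : algebraMap M (w.adicCompletion M) (B.repr x i • B i) =
        (algebraMap F (v.adicCompletion F) (B.repr x i)) •
          algebraMap M (w.adicCompletion M) (B i) := by
      have e1 : B.repr x i • B i = f (B.repr x i) * B i := rfl
      rw [e1, map_mul, ← hjx]
      rfl
    rw [e]
    exact S.smul_mem _ (Submodule.subset_span ⟨i, rfl⟩)
  have htop : ∀ y : w.adicCompletion M, y ∈ S := by
    intro y
    have hd := HeightOneSpectrum.denseRange_algebraMap M w y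
    have hsub : Set.range (algebraMap M (w.adicCompletion M)) ⊆ (S : Set (w.adicCompletion M)) := by
      rintro _ ⟨x, rfl⟩
      exact hM x
    have := closure_mono hsub hd
    rwa [hcl.closure_eq] at this
  refine ⟨j, ?_, hjx, fun y => ?_⟩
  · have hT : S = ⊤ := by
      rw [eq_top_iff]
      exact fun y _ => htop y
    change Module.Finite (v.adicCompletion F) (w.adicCompletion M)
    have h3 : Module.Finite (v.adicCompletion F) (⊤ : Submodule (v.adicCompletion F)
      (w.adicCompletion M)) := hT ▸ hSf
    exact Module.finite_def.2 (Module.Finite.iff_fg.1 h3)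
  · obtain ⟨c, hc⟩ := Submodule.mem_span_range_iff_exists_fun _ |>.1 (htop y)
    refine ⟨_, c, fun i => B i, ?_⟩
    rw [← hc]
    rfl

end

end Pool.Agent.H40.SHN
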