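import Mathlib
import Pool.Graph.R_seed8.Y696.Fac
import Pool.Agent.H40.SHN.Cores
import Pool.Agent.H40.SHN.Loc

/-!
# Locally trivial cocycles over number fields: twists and corestriction
-/

set_option autoImplicit false

namespace Pool.Agent.H40.SHN

open IsDedekindDomain NumberField

/-- the automorphisms over `k` -/
def HF (k Λ : Type) [Field k] [Field Λ] [Algebra k Λ] : Subgroup (RingAut Λ) where
  carrier := {x | ∀ a : k, x (algebraMap k Λ a) = algebraMap k Λ a}
  one_mem' := fun _ => rfl
  mul_mem' := by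
    intro x y hx hy a
    rw [RingAut.mul_apply, hy, hx]
  inv_mem' := by
    intro x hx a
    apply (x : Λ ≃+* Λ).injective
    rw [hx]
    exact (x : Λ ≃+* Λ).apply_symm_apply _

lemma mem_HF {k Λ : Type} [Field k] [Field Λ] [Algebra k Λ] {x : RingAut Λ} :
    x ∈ HF k Λ ↔ ∀ a : k, x (algebraMap k Λ a) = algebraMap k Λ a := Iff.rfl

/-- the algebraic closures of a finite extension -/
lemma clos_ex {A B : Type} [Field A] [Field B] (j : A →+* B) (hj : j.Finite) :
    ∃ θ : AlgebraicClosure A ≃+* AlgebraicClosure B, ∀ a,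
      θ (algebraMap A _ a) = algebraMap B _ (j a) := by
  let _ : Algebra A B := j.toAlgebra
  have : Module.Finite A B := hj
  have h : IsAlgClosure A (AlgebraicClosure B) :=
    ⟨inferInstance, Algebra.IsAlgebraic.trans A B (AlgebraicClosure B)⟩
  let θ : AlgebraicClosure A ≃ₐ[A] AlgebraicClosure B :=
    IsAlgClosure.equiv A (AlgebraicClosure A) (AlgebraicClosure B)
  refine ⟨θ.toRingEquiv, fun a => ?_⟩
  exact θ.commutes a

/-- automorphisms extend to the algebraic closure -/
lemma lift_ex {K : Type} [Field K] (s₀ : K ≃+* K) : ∃ s : RingAut (AlgebraicClosure K),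
    ∀ x : K, s (algebraMap K _ x) = algebraMap K _ (s₀ x) :=
  ⟨IsAlgClosure.equivOfEquiv (AlgebraicClosure K) (AlgebraicClosure K) s₀,
    fun x => IsAlgClosure.equivOfEquiv_algebraMap (AlgebraicClosure K) (AlgebraicClosure K) s₀ x⟩

section

variable {K : Type} [Field K] [NumberField K]

/-- a continuous cocycle that is locally trivial at the finite places -/
structure ShaC (K : Type) [Field K] [NumberField K]
    (u : RingAut (AlgebraicClosure K) → EP (AlgebraicClosure K)) : Prop where
  coc : Coc (HF K (AlgebraicClosure K)) u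
  loc : ∀ (w : HeightOneSpectrum (𝓞 K))
    (ι : AlgebraicClosure K →+* AlgebraicClosure (w.adicCompletion K)),
    (∀ x : K, ι (algebraMap K _ x) = algebraMap (w.adicCompletion K) _ (algebraMap K _ x)) →
    LT (HF K (AlgebraicClosure K)) u ι
      (HF (w.adicCompletion K) (AlgebraicClosure (w.adicCompletion K)))

omit [NumberField K] in
lemma cj_mem {s : RingAut (AlgebraicClosure K)} {s₀ : K ≃+* K}
    (hs : ∀ x : K, s (algebraMap K _ x) = algebraMap K _ (s₀ x)) :
    ∀ x ∈ HF K (AlgebraicClosure K), cj s x ∈ HF K (AlgebraicClosure K) := by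
  intro x hx a
  apply (s : AlgebraicClosure K ≃+* AlgebraicClosure K).injective
  rw [cj_apply]
  change x (s (algebraMap K _ a)) = s (algebraMap K _ a)
  rw [hs, hx]

omit [NumberField K] in
lemma symm_hs {s : RingAut (AlgebraicClosure K)} {s₀ : K ≃+* K}
    (hs : ∀ x : K, s (algebraMap K _ x) = algebraMap K _ (s₀ x)) (x : K) :
    s⁻¹ (algebraMap K _ x) = algebraMap K _ (s₀.symm x) := by
  apply (s : AlgebraicClosure K ≃+* AlgebraicClosure K).injective
  have h1 : s (s⁻¹ (algebraMap K _ x)) = algebraMap K _ x :=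
    (s : AlgebraicClosure K ≃+* AlgebraicClosure K).apply_symm_apply _
  change s (s⁻¹ (algebraMap K _ x)) = s (algebraMap K _ (s₀.symm x))
  rw [h1, hs, s₀.apply_symm_apply]

/-- **the twists of a locally trivial cocycle are locally trivial** -/
theorem ShaC.tw {u : RingAut (AlgebraicClosure K) → EP (AlgebraicClosure K)} (hu : ShaC K u)
    {s : RingAut (AlgebraicClosure K)} {s₀ : K ≃+* K}
    (hs : ∀ x : K, s (algebraMap K _ x) = algebraMap K _ (s₀ x)) : ShaC K (SHN.tw s u) := by
  refine ⟨hu.coc.tw (cj_mem hs), fun w ι hι => LT.tw ?_ (cj_mem hs)⟩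
  obtain ⟨w', hw'⟩ := Pool.Agent.Y696.val_aut s₀ w
  obtain ⟨j, hj, hjx, -⟩ := compl_ex w' w (s₀ : K →+* K)
    (fun x hx => by
      change w.valuation K (s₀ x) ≤ 1
      rwa [hw'])
    (fun x hx => by
      change w.valuation K (s₀ x) < 1
      rwa [hw'])
  obtain ⟨θ, hθ⟩ := clos_ex j hj
  have h1 := hu.loc w' (((θ.symm : _ →+* _).comp ι).comp ((s : AlgebraicClosure K ≃+*
    AlgebraicClosure K) : AlgebraicClosure K →+* AlgebraicClosure K)) (fun x => by
      change θ.symm (ι (s (algebraMap K _ x))) = _
      rw [hs, hι]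
      apply θ.injective
      rw [θ.apply_symm_apply, hθ, hjx]
      rfl)
  have h2 := h1.map (θ := θ) (B' := HF (w.adicCompletion K) _) (fun τ hτ a => by
    apply θ.injective
    rw [cj_apply, hθ, hτ])
  convert h2 using 1
  refine RingHom.ext fun x => ?_
  exact (θ.apply_symm_apply _).symm

end

section ext

variable {F K : Type} [Field F] [NumberField F] [Field K] [NumberField K] [Algebra F K]

omit [NumberField K] in
lemma above_ex (v : HeightOneSpectrum (𝓞 F)) :
    ∃ w : HeightOneSpectrum (𝓞 K), w.asIdeal.LiesOver v.asIdeal := by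
  have : v.asIdeal.IsMaximal := v.isPrime.isMaximal v.ne_bot
  obtain ⟨P, hP, hlo⟩ := Ideal.exists_maximal_ideal_liesOver_of_isIntegral v.asIdeal (S := 𝓞 K)
  refine ⟨⟨P, hP.isPrime, ?_⟩, hlo⟩
  exact Ideal.ne_bot_of_liesOver_of_ne_bot v.ne_bot P

/-- **a locally trivial cocycle of the extension at the places of the base** -/
theorem lt_over [Normal F K] {u : RingAut (AlgebraicClosure K) → EP (AlgebraicClosure K)}
    (hu : ShaC K u) (v : HeightOneSpectrum (𝓞 F))
    (ι : AlgebraicClosure K →+* AlgebraicClosure (v.adicCompletion F))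
    (hι : ∀ x : F, ι (algebraMap F _ x) = algebraMap (v.adicCompletion F) _ (algebraMap F _ x)) :
    LT (HF K (AlgebraicClosure K)) u ι (HF (v.adicCompletion F) _) := by
  obtain ⟨w, hw⟩ := above_ex (K := K) v
  have hval := fun x : F => HeightOneSpectrum.valuation_liesOver K v w x
  have hram : v.asIdeal.ramificationIdx' w.asIdeal ≠ 0 :=
    Ideal.IsDedekindDomain.ramificationIdx'_ne_zero_of_liesOver w.asIdeal v.ne_bot
  obtain ⟨j, hj, hjx, hgen⟩ := compl_ex v w (algebraMap F K)
    (fun x hx => by
      rw [← hval]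
      exact pow_le_one₀ zero_le hx)
    (fun x hx => by
      rw [← hval]
      exact pow_lt_one₀ zero_le hx hram)
  obtain ⟨θ, hθ⟩ := clos_ex j hj
  -- the embedding restricted to `K`
  have ht : IsScalarTower F K (AlgebraicClosure (w.adicCompletion K)) := inferInstance
  let φ : AlgebraicClosure K →ₐ[F] AlgebraicClosure (w.adicCompletion K) :=
    { (θ : AlgebraicClosure (v.adicCompletion F) →+*
      AlgebraicClosure (w.adicCompletion K)).comp ι with
      commutes' := fun x => by
        change θ (ι (algebraMap F _ x)) = _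
        rw [hι, hθ, hjx, IsScalarTower.algebraMap_apply F K (AlgebraicClosure (w.adicCompletion K))]
        rfl }
  let γ : K ≃ₐ[F] K := φ.restrictNormal' K
  have hγ : ∀ x : K, algebraMap K (AlgebraicClosure (w.adicCompletion K)) (γ x) =
      θ (ι (algebraMap K _ x)) := fun x => AlgHom.restrictNormal_commutes φ K x
  obtain ⟨s, hs⟩ := lift_ex (γ.symm : K ≃+* K)
  have hs1 : ∀ x : K, s⁻¹ (algebraMap K _ x) = algebraMap K _ (γ x) := fun x => symm_hs hs x
  have hu' : ShaC K (tw s⁻¹ u) := hu.tw (s₀ := (γ : K ≃+* K)) hs1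
  have h1 := hu'.loc w (((θ : AlgebraicClosure (v.adicCompletion F) →+*
      AlgebraicClosure (w.adicCompletion K)).comp ι).comp ((s : AlgebraicClosure K ≃+*
    AlgebraicClosure K) : AlgebraicClosure K →+* AlgebraicClosure K)) (fun x => by
      change θ (ι (s (algebraMap K _ x))) = _
      rw [hs, ← hγ]
      change algebraMap K _ (γ (γ.symm x)) = _
      rw [γ.apply_symm_apply]
      rfl)
  have h2 := h1.tw_symm (H := HF K (AlgebraicClosure K)) (fun x hx => cj_mem hs x hx)
  have e2 : (((θ : AlgebraicClosure (v.adicCompletion F) →+*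
      AlgebraicClosure (w.adicCompletion K)).comp ι).comp ((s : AlgebraicClosure K ≃+*
      AlgebraicClosure K) : AlgebraicClosure K →+* AlgebraicClosure K)).comp
      (((s⁻¹ : RingAut (AlgebraicClosure K)) : AlgebraicClosure K ≃+* AlgebraicClosure K) :
        AlgebraicClosure K →+* AlgebraicClosure K) = (θ : AlgebraicClosure (v.adicCompletion F) →+*
      AlgebraicClosure (w.adicCompletion K)).comp ι := by
    refine RingHom.ext fun x => ?_
    change θ (ι (s (s⁻¹ x))) = θ (ι x)
    have : s (s⁻¹ x) = x := (s : AlgebraicClosure K ≃+* AlgebraicClosure K).apply_symm_apply x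
    rw [this]
  rw [e2] at h2
  have h3 := h2.map' (θ := θ.symm) (B' := HF (v.adicCompletion F) _) (fun τ hτ x hx hx' y => by
    obtain ⟨n, a, b, rfl⟩ := hgen y
    rw [map_sum, map_sum]
    refine Finset.sum_congr rfl fun i _ => ?_
    rw [map_mul, map_mul]
    have hx1 : ∀ a, τ (ι a) = ι (x a) := by
      intro a
      have := hx' a
      change τ (θ.symm (θ (ι a))) = θ.symm (θ (ι (x a))) at this
      rwa [θ.symm_apply_apply, θ.symm_apply_apply] at this
    congr 1
    · rw [← hθ]
      apply θ.symm.injective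
      rw [cj_apply, θ.symm_apply_apply, hτ]
    · have e3 : algebraMap (w.adicCompletion K) (AlgebraicClosure (w.adicCompletion K))
          (algebraMap K (w.adicCompletion K) (b i)) = θ (ι (algebraMap K _ (γ.symm (b i)))) := by
        rw [← hγ, γ.apply_symm_apply]
        rfl
      rw [e3]
      apply θ.symm.injective
      rw [cj_apply, θ.symm_apply_apply, hx1, hx])
  have e4 : (θ.symm : AlgebraicClosure (w.adicCompletion K) →+*
      AlgebraicClosure (v.adicCompletion F)).comp ((θ : AlgebraicClosure (v.adicCompletion F) →+*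
      AlgebraicClosure (w.adicCompletion K)).comp ι) = ι :=
    RingHom.ext fun x => θ.symm_apply_apply _
  rw [e4] at h3
  exact h3

end ext

end Pool.Agent.H40.SHN
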