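import Mathlib
import Pool.Agent.H40.SHN.Num

/-!
# The corestriction of locally trivial cocycles
-/

set_option autoImplicit false

namespace Pool.Agent.H40.SHN

open IsDedekindDomain NumberField

section

variable {F K : Type} [Field F] [Field K] [Algebra F K]

lemma mem_HF' {x : RingAut (AlgebraicClosure K)} : x ∈ HF F (AlgebraicClosure K) ↔
    ∀ a : F, x (algebraMap K _ (algebraMap F K a)) = algebraMap K _ (algebraMap F K a) := by
  rw [mem_HF]
  refine forall_congr' fun a => ?_
  rw [IsScalarTower.algebraMap_apply F K (AlgebraicClosure K)]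

lemma alg_inj : Function.Injective (algebraMap K (AlgebraicClosure K)) :=
  (algebraMap K (AlgebraicClosure K)).injective

lemma restr_ex [Normal F K] {x : RingAut (AlgebraicClosure K)}
    (hx : x ∈ HF F (AlgebraicClosure K)) :
    ∃ γ : K ≃ₐ[F] K, ∀ a : K, x (algebraMap K _ a) = algebraMap K _ (γ a) := by
  let y : AlgebraicClosure K ≃ₐ[F] AlgebraicClosure K := AlgEquiv.ofRingEquiv (f := x) hx
  exact ⟨y.restrictNormal K, fun a => (AlgEquiv.restrictNormal_commutes y K a).symm⟩

open Classical in
/-- the restriction to `K` -/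
noncomputable def rst (F K : Type) [Field F] [Field K] [Algebra F K]
    (x : RingAut (AlgebraicClosure K)) : K ≃ₐ[F] K :=
  if h : ∃ γ : K ≃ₐ[F] K, ∀ a : K, x (algebraMap K _ a) = algebraMap K _ (γ a) then h.choose else 1

lemma rst_spec [Normal F K] {x : RingAut (AlgebraicClosure K)}
    (hx : x ∈ HF F (AlgebraicClosure K)) (a : K) :
    x (algebraMap K _ a) = algebraMap K _ (rst F K x a) := by
  unfold rst
  have h := restr_ex hx
  rw [dif_pos h]
  exact h.choose_spec a

/-- a lift to the algebraic closure -/
noncomputable def lf (F K : Type) [Field F] [Field K] [Algebra F K] (γ : K ≃ₐ[F] K) :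
    RingAut (AlgebraicClosure K) := (lift_ex (γ : K ≃+* K)).choose

lemma lf_spec (γ : K ≃ₐ[F] K) (a : K) :
    lf F K γ (algebraMap K _ a) = algebraMap K _ (γ a) :=
  (lift_ex (γ : K ≃+* K)).choose_spec a

lemma lf_inv (γ : K ≃ₐ[F] K) (a : K) :
    (lf F K γ)⁻¹ (algebraMap K _ (γ a)) = algebraMap K _ a := by
  rw [← lf_spec]
  exact (lf F K γ : AlgebraicClosure K ≃+* AlgebraicClosure K).symm_apply_apply _

/-- the system of representatives -/
noncomputable def reps (F K : Type) [Field F] [Field K] [Algebra F K] [Normal F K]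
    [FiniteDimensional F K] :
    Reps (HF F (AlgebraicClosure K)) (HF K (AlgebraicClosure K)) (K ≃ₐ[F] K) where
  r := lf F K
  hr := fun γ => by
    rw [mem_HF']
    intro a
    rw [lf_spec, γ.commutes]
  a := fun g c => rst F K g * c
  mem := fun g hg c a => by
    rw [RingAut.mul_apply, RingAut.mul_apply, lf_spec, rst_spec hg]
    exact lf_inv (rst F K g * c) a
  uniq := fun g hg c c' h => by
    apply AlgEquiv.ext
    intro a
    have h1 := h a
    rw [RingAut.mul_apply, RingAut.mul_apply, lf_spec, rst_spec hg] at h1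
    have h2 := congrArg (lf F K c') h1
    have h3 : ∀ z, lf F K c' ((lf F K c')⁻¹ z) = z := fun z =>
      (lf F K c' : AlgebraicClosure K ≃+* AlgebraicClosure K).apply_symm_apply z
    rw [h3, lf_spec] at h2
    exact (alg_inj h2).symm
  le := fun x hx => by
    rw [mem_HF']
    exact fun a => hx _
  nrm := fun g hg x hx a => by
    have h1 : x * g = g * (g⁻¹ * x * g) := by group
    rw [RingAut.mul_apply, RingAut.mul_apply, rst_spec hg, hx, ← rst_spec hg]
    exact (g : AlgebraicClosure K ≃+* AlgebraicClosure K).symm_apply_apply _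
  lc := fun g hg => by
    classical
    let B := Module.finBasis F K
    refine ⟨Finset.univ.image fun i => algebraMap K _ (B i), fun g' hg' h => ?_⟩
    have h1 : rst F K g' = rst F K g := by
      have : (rst F K g').toLinearMap = (rst F K g).toLinearMap := by
        refine B.ext fun i => ?_
        apply alg_inj (K := K)
        change algebraMap K _ (rst F K g' (B i)) = algebraMap K _ (rst F K g (B i))
        rw [← rst_spec hg', ← rst_spec hg]
        exact h _ (Finset.mem_image_of_mem _ (Finset.mem_univ i))
      apply AlgEquiv.ext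
      intro a
      exact LinearMap.congr_fun this a
    funext c
    rw [h1]

end

section

variable {F K : Type} [Field F] [NumberField F] [Field K] [NumberField K] [Algebra F K]
  [IsGalois F K]

/-- the isomorphism of the algebraic closures -/
noncomputable def clo (F K : Type) [Field F] [NumberField F] [Field K] [NumberField K]
    [Algebra F K] : AlgebraicClosure F ≃ₐ[F] AlgebraicClosure K :=
  have : Algebra.IsAlgebraic F K := inferInstance
  have : IsAlgClosure F (AlgebraicClosure K) :=
    ⟨inferInstance, Algebra.IsAlgebraic.trans F K (AlgebraicClosure K)⟩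
  IsAlgClosure.equiv F (AlgebraicClosure F) (AlgebraicClosure K)

/-- the corestriction to the base field -/
noncomputable def corF (F K : Type) [Field F] [NumberField F] [Field K] [NumberField K]
    [Algebra F K] [IsGalois F K] (u : RingAut (AlgebraicClosure K) → EP (AlgebraicClosure K)) :
    RingAut (AlgebraicClosure F) → EP (AlgebraicClosure F) :=
  tw ((clo F K).symm : AlgebraicClosure K ≃+* AlgebraicClosure F) ((reps F K).cor u)

lemma cj_clo {x : RingAut (AlgebraicClosure F)} (hx : x ∈ HF F (AlgebraicClosure F)) :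
    cj ((clo F K).symm : AlgebraicClosure K ≃+* AlgebraicClosure F) x ∈
      HF F (AlgebraicClosure K) := by
  intro a
  apply ((clo F K).symm : AlgebraicClosure K ≃+* AlgebraicClosure F).injective
  rw [cj_apply]
  change x ((clo F K).symm (algebraMap F _ a)) = (clo F K).symm (algebraMap F _ a)
  rw [(clo F K).symm.commutes, hx]

lemma cj_clo' {x : RingAut (AlgebraicClosure K)} (hx : x ∈ HF F (AlgebraicClosure K)) :
    cj ((clo F K : AlgebraicClosure F ≃+* AlgebraicClosure K)) x ∈
      HF F (AlgebraicClosure F) := by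
  intro a
  apply (clo F K : AlgebraicClosure F ≃+* AlgebraicClosure K).injective
  rw [cj_apply]
  change x ((clo F K) (algebraMap F _ a)) = (clo F K) (algebraMap F _ a)
  rw [(clo F K).commutes, hx]

/-- **the corestriction of a locally trivial cocycle is locally trivial** -/
theorem ShaC.cor {u : RingAut (AlgebraicClosure K) → EP (AlgebraicClosure K)} (hu : ShaC K u) :
    ShaC F (corF F K u) := by
  refine ⟨((reps F K).coc_cor hu.coc).tw fun x hx => cj_clo hx, fun v ι hι => ?_⟩
  refine LT.tw ?_ fun x hx => cj_clo hx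
  refine (reps F K).lt_cor hu.coc fun c => ?_
  refine lt_over (F := F) (hu.tw (s₀ := (c : K ≃+* K)) (lf_spec c)) v _ fun x => ?_
  change ι ((clo F K).symm (algebraMap F _ x)) = _
  rw [(clo F K).symm.commutes, hι]

lemma tw_tw {Λ Λ' Λ'' : Type} [Field Λ] [Field Λ'] [Field Λ''] (e : Λ ≃+* Λ') (e' : Λ' ≃+* Λ'')
    (u : RingAut Λ → EP Λ) : tw e' (tw e u) = tw (e.trans e') u := by
  funext x
  rw [tw_apply, tw_apply, tw_apply, pm_pm]
  rfl

lemma tw_refl {Λ : Type} [Field Λ] (u : RingAut Λ → EP Λ) : tw (RingEquiv.refl Λ) u = u := by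
  funext x
  rw [tw_apply]
  exact pm_id _

/-- **the norm of a locally trivial class is trivial** -/
theorem norm_cob (hF : ∀ u₀, ShaC F u₀ → ∀ j : ℕ, Cob (HF F _) (3 ^ j • u₀) → Cob (HF F _) u₀)
    {u : RingAut (AlgebraicClosure K) → EP (AlgebraicClosure K)} (hu : ShaC K u) (j : ℕ)
    (h : Cob (HF K _) (3 ^ j • u)) :
    Cob (HF K _) (∑ c : K ≃ₐ[F] K, tw (lf F K c) u) := by
  have h1 : Cob (HF F _) (3 ^ j • corF F K u) := by
    have h2 := (reps F K).cob_cor h
    rw [(reps F K).cor_smul] at h2
    have h3 := h2.tw (e := ((clo F K).symm : AlgebraicClosure K ≃+* AlgebraicClosure F))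
      (H' := HF F _) fun x hx => cj_clo hx
    refine h3.congr fun x hx => ?_
    rw [tw_apply, Pi.smul_apply, Pi.smul_apply, map_nsmul]
    rfl
  have h4 := hF _ hu.cor j h1
  have h5 := h4.tw (e := (clo F K : AlgebraicClosure F ≃+* AlgebraicClosure K))
      (H' := HF F _) fun x hx => cj_clo' hx
  unfold corF at h5
  rw [tw_tw] at h5
  have e : ((clo F K).symm : AlgebraicClosure K ≃+* AlgebraicClosure F).trans
      (clo F K : AlgebraicClosure F ≃+* AlgebraicClosure K) = RingEquiv.refl _ := by
    apply RingEquiv.ext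
    intro x
    exact (clo F K).apply_symm_apply x
  rw [e, tw_refl] at h5
  obtain ⟨P, hP⟩ := h5
  refine ⟨P, fun x hx => ?_⟩
  rw [← hP x ((reps F K).le hx), (reps F K).cor_res u hx, Finset.sum_apply]
  rfl

end

end Pool.Agent.H40.SHN
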