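import Mathlib
import Pool.Agent.H40.SHN.Base

/-!
# The Galois group acts on the Tate-Shafarevich group of `y² + y = x³`, and the norm
-/

set_option autoImplicit false

namespace Pool.Agent.H40.SHN

open WeierstrassCurve IsDedekindDomain NumberField
open Pool.Agent.Q7.CE (ED)
open Pool.Agent.TH841.SH.D (Coch Pt act Gal IsCoc IsCob LocTriv cob)
open Pool.Agent.TH841.NF.D (Sha IsShaCoc shaCoc)

section conv

variable {k : Type} [Field k]

/-- an element of the absolute Galois group -/
noncomputable def toG {x : RingAut (AlgebraicClosure k)} (hx : x ∈ HF k (AlgebraicClosure k)) : Gal k :=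
  AlgEquiv.ofRingEquiv (f := x) hx

lemma toG_apply {x : RingAut (AlgebraicClosure k)} (hx : x ∈ HF k (AlgebraicClosure k))
    (a : AlgebraicClosure k) : toG hx a = x a := rfl

/-- an element of the absolute Galois group as an automorphism -/
noncomputable def ofG (σ : Gal k) : RingAut (AlgebraicClosure k) := σ.toRingEquiv

lemma ofG_mem (σ : Gal k) : ofG σ ∈ HF k (AlgebraicClosure k) := fun a => σ.commutes a

lemma ofG_apply (σ : Gal k) (a : AlgebraicClosure k) : ofG σ a = σ a := rfl

lemma toG_ofG (σ : Gal k) : toG (ofG_mem σ) = σ := AlgEquiv.ext fun _ => rfl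

lemma ofG_toG {x : RingAut (AlgebraicClosure k)} (hx : x ∈ HF k (AlgebraicClosure k)) :
    ofG (toG hx) = x := RingEquiv.ext fun _ => rfl

lemma ofG_mul (σ τ : Gal k) : ofG (σ * τ) = ofG σ * ofG τ := RingEquiv.ext fun _ => rfl

open Classical in
/-- a cochain as a function on the automorphisms -/
noncomputable def ex (f : Coch (ED (1 : k))) : RingAut (AlgebraicClosure k) →
    EP (AlgebraicClosure k) := fun x =>
  if hx : x ∈ HF k (AlgebraicClosure k) then cv k (AlgebraicClosure k) (f (toG hx)) else 0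

lemma ex_of {f : Coch (ED (1 : k))} {x : RingAut (AlgebraicClosure k)}
    (hx : x ∈ HF k (AlgebraicClosure k)) : ex f x = cv k (AlgebraicClosure k) (f (toG hx)) := by
  unfold ex
  rw [dif_pos hx]

lemma ex_ofG (f : Coch (ED (1 : k))) (σ : Gal k) :
    ex f (ofG σ) = cv k (AlgebraicClosure k) (f σ) := by
  rw [ex_of (ofG_mem σ), toG_ofG]

/-- a function on the automorphisms as a cochain -/
noncomputable def bk (u : RingAut (AlgebraicClosure k) → EP (AlgebraicClosure k)) :
    Coch (ED (1 : k)) := fun σ => (cv k (AlgebraicClosure k)).symm (u (ofG σ))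

lemma cv_bk (u : RingAut (AlgebraicClosure k) → EP (AlgebraicClosure k)) (σ : Gal k) :
    cv k (AlgebraicClosure k) (bk u σ) = u (ofG σ) := AddEquiv.apply_symm_apply _ _

lemma ex_bk {u : RingAut (AlgebraicClosure k) → EP (AlgebraicClosure k)}
    {x : RingAut (AlgebraicClosure k)} (hx : x ∈ HF k (AlgebraicClosure k)) :
    ex (bk u) x = u x := by
  rw [ex_of hx, cv_bk, ofG_toG]

lemma bk_ex (f : Coch (ED (1 : k))) : bk (ex f) = f := by
  funext σ
  apply (cv k (AlgebraicClosure k)).injective
  rw [cv_bk, ex_ofG]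

lemma cv_pa (σ : Gal k) (P : Pt (ED (1 : k)) (AlgebraicClosure k)) :
    cv k (AlgebraicClosure k) (act (ED (1 : k)) σ.toAlgHom P) =
      pa (ofG σ) (cv k (AlgebraicClosure k) P) := cv_act _ _

/-- a locally constant function -/
lemma lc_iff (f : Coch (ED (1 : k))) : IsLocallyConstant f ↔
    ∀ x ∈ HF k (AlgebraicClosure k), ∃ S : Finset (AlgebraicClosure k),
      ∀ y ∈ HF k (AlgebraicClosure k), (∀ a ∈ S, y a = x a) → ex f y = ex f x := by
  classical
  constructor
  · intro h x hx
    obtain ⟨U, hU, hxU, hfU⟩ := (IsLocallyConstant.iff_exists_open f).1 h (toG hx)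
    have h1 : (fun τ : Gal k => toG hx * τ) ⁻¹' U ∈ nhds (1 : Gal k) :=
      (hU.preimage (continuous_const_mul (toG hx))).mem_nhds (by
        change toG hx * 1 ∈ U
        rwa [mul_one])
    obtain ⟨E, hE, hEU⟩ := (krullTopology_mem_nhds_one_iff k (AlgebraicClosure k) _).1 h1
    let B := Module.finBasis k E
    refine ⟨Finset.univ.image fun i => ((B i : E) : AlgebraicClosure k), fun y hy hyx => ?_⟩
    rw [ex_of hy, ex_of hx]
    congr 1
    have h2 : (toG hx)⁻¹ * toG hy ∈ E.fixingSubgroup := by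
      rw [IntermediateField.mem_fixingSubgroup_iff]
      intro z hz
      have h3 : ((toG hy).toAlgHom.comp E.val).toLinearMap =
          ((toG hx).toAlgHom.comp E.val).toLinearMap := by
        refine B.ext fun i => ?_
        exact hyx _ (Finset.mem_image_of_mem _ (Finset.mem_univ i))
      have h4 : toG hy z = toG hx z := LinearMap.congr_fun h3 (⟨z, hz⟩ : E)
      rw [AlgEquiv.mul_apply, h4]
      exact (toG hx).symm_apply_apply z
    have h5 := hEU h2
    change toG hx * ((toG hx)⁻¹ * toG hy) ∈ U at h5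
    rw [mul_inv_cancel_left] at h5
    exact hfU _ h5
  · intro h
    refine (IsLocallyConstant.iff_exists_open f).2 fun σ => ?_
    obtain ⟨S, hS⟩ := h (ofG σ) (ofG_mem σ)
    let E : IntermediateField k (AlgebraicClosure k) := IntermediateField.adjoin k S
    have hfd : FiniteDimensional k E :=
      IntermediateField.finiteDimensional_adjoin fun z _ => Algebra.IsIntegral.isIntegral z
    refine ⟨(fun τ : Gal k => σ⁻¹ * τ) ⁻¹' (E.fixingSubgroup : Set (Gal k)),
      (E.fixingSubgroup_isOpen).preimage (continuous_const_mul σ⁻¹), ?_, fun τ hτ => ?_⟩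
    · change σ⁻¹ * σ ∈ E.fixingSubgroup
      rw [inv_mul_cancel]
      exact E.fixingSubgroup.one_mem
    · have hτ' : σ⁻¹ * τ ∈ E.fixingSubgroup := hτ
      rw [IntermediateField.mem_fixingSubgroup_iff] at hτ'
      have h1 := hS (ofG τ) (ofG_mem τ) fun a ha => by
        have h2 := hτ' a (IntermediateField.subset_adjoin k _ ha)
        change τ a = σ a
        conv_rhs => rw [← h2]
        rw [← AlgEquiv.mul_apply, mul_inv_cancel_left]
      rw [ex_ofG, ex_ofG] at h1
      exact (cv k (AlgebraicClosure k)).injective h1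

lemma isCoc_iff (f : Coch (ED (1 : k))) :
    IsCoc (ED (1 : k)) f ↔ Coc (HF k (AlgebraicClosure k)) (ex f) := by
  constructor
  · rintro ⟨h1, h2⟩
    refine ⟨fun x hx y hy => ?_, (lc_iff f).1 h1⟩
    rw [← ofG_toG hx, ← ofG_toG hy, ← ofG_mul, ex_ofG, ex_ofG, ex_ofG, h2, map_add, cv_pa]
  · intro h
    refine ⟨(lc_iff f).2 h.lc, fun σ τ => ?_⟩
    apply (cv k (AlgebraicClosure k)).injective
    have := h.mul _ (ofG_mem σ) _ (ofG_mem τ)
    rw [← ofG_mul, ex_ofG, ex_ofG, ex_ofG] at this
    rw [this, map_add, cv_pa]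

lemma isCob_iff (f : Coch (ED (1 : k))) :
    IsCob (ED (1 : k)) f ↔ Cob (HF k (AlgebraicClosure k)) (ex f) := by
  constructor
  · rintro ⟨P, hP⟩
    refine ⟨cv k _ P, fun x hx => ?_⟩
    rw [← ofG_toG hx, ex_ofG, hP, map_sub, cv_pa]
  · rintro ⟨P, hP⟩
    refine ⟨(cv k _).symm P, fun σ => ?_⟩
    apply (cv k (AlgebraicClosure k)).injective
    rw [map_sub, cv_pa, AddEquiv.apply_symm_apply, ← hP _ (ofG_mem σ), ex_ofG]

lemma locTriv_iff (L : Type) [Field L] [Algebra k L] (f : Coch (ED (1 : k))) :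
    LocTriv (ED (1 : k)) L f ↔ ∀ ι : AlgebraicClosure k →+* AlgebraicClosure L,
      (∀ x : k, ι (algebraMap k _ x) = algebraMap L _ (algebraMap k L x)) →
      LT (HF k (AlgebraicClosure k)) (ex f) ι (HF L (AlgebraicClosure L)) := by
  constructor
  · intro h ι hι
    let ι' : AlgebraicClosure k →ₐ[k] AlgebraicClosure L :=
      { ι with
        commutes' := fun x => by
          change ι (algebraMap k _ x) = _
          rw [hι, IsScalarTower.algebraMap_apply k L (AlgebraicClosure L)] }
    obtain ⟨P, hP⟩ := h ι'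
    refine ⟨cv k _ P, fun τ hτ x hx hx' => ?_⟩
    have h1 := hP (toG hτ) (toG hx) hx'
    rw [ex_of hx]
    have h2 := congrArg (cv k (AlgebraicClosure L)) h1
    rw [map_sub, cv_act, cv_act] at h2
    exact h2
  · intro h ι
    obtain ⟨P, hP⟩ := h (ι : AlgebraicClosure k →+* AlgebraicClosure L) fun x => by
      change ι (algebraMap k _ x) = _
      rw [ι.commutes, IsScalarTower.algebraMap_apply k L (AlgebraicClosure L)]
    refine ⟨(cv k _).symm P, fun τ σ hτσ => ?_⟩
    apply (cv k (AlgebraicClosure L)).injective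
    have h1 := hP (ofG τ) (ofG_mem τ) (ofG σ) (ofG_mem σ) hτσ
    rw [ex_ofG] at h1
    rw [map_sub, cv_act, cv_act, AddEquiv.apply_symm_apply]
    exact h1

/-- the complex places -/
theorem loc_inf (v : InfinitePlace k) (hc : v.IsComplex) (W : WeierstrassCurve k)
    {f : Coch W} (h1 : f 1 = 0) : LocTriv W v.Completion f := by
  have hac : IsAlgClosed v.Completion :=
    IsAlgClosed.of_ringEquiv ℂ v.Completion
      (InfinitePlace.Completion.ringEquivComplexOfIsComplex hc).symm
  intro ι'
  refine ⟨0, fun τ σ h => ?_⟩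
  have h2 : ∀ y, τ y = y := by
    intro y
    obtain ⟨x, rfl⟩ := (IsAlgClosed.algebraMap_bijective_of_isIntegral
      (k := v.Completion) (K := AlgebraicClosure v.Completion)).2 y
    exact τ.commutes x
  have h3 : σ = 1 := by
    refine AlgEquiv.ext fun x => ι'.injective ?_
    have h4 : ι' (σ x) = ι' x := by rw [← h, h2]
    exact h4
  rw [h3, h1, map_zero, map_zero, sub_zero]

lemma coc_one {W : WeierstrassCurve k} {f : Coch W} (h : IsCoc W f) : f 1 = 0 := by
  have h1 := h.2 1 1
  rw [mul_one] at h1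
  have h2 := left_eq_add.1 h1
  let _ : DecidableEq (AlgebraicClosure k) := Classical.decEq _
  exact Affine.Point.map_injective (W' := W) (f := (1 : Gal k).toAlgHom) h2

end conv

section sha

variable {K : Type} [Field K] [NumberField K]

lemma isShaCoc_iff [IsTotallyComplex K] (f : Coch (ED (1 : K))) :
    IsShaCoc (ED (1 : K)) f ↔ ShaC K (ex f) := by
  constructor
  · rintro ⟨h1, h2, -⟩
    exact ⟨(isCoc_iff f).1 h1, fun w => (locTriv_iff _ f).1 (h2 w)⟩
  · rintro ⟨h1, h2⟩
    have h3 := (isCoc_iff f).2 h1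
    exact ⟨h3, fun w => (locTriv_iff _ f).2 (h2 w),
      fun v => loc_inf v (IsTotallyComplex.isComplex v) _ (coc_one h3)⟩

theorem ShaC.congr {u u' : RingAut (AlgebraicClosure K) → EP (AlgebraicClosure K)} (h : ShaC K u)
    (hu : ∀ x ∈ HF K (AlgebraicClosure K), u' x = u x) : ShaC K u' :=
  ⟨h.coc.congr hu, fun w ι hι => (h.loc w ι hι).congr hu⟩

end sha

end Pool.Agent.H40.SHN
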