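import Mathlib

/-!
# Groups with an automorphism which is trivial on the elements of order three
-/

set_option autoImplicit false

namespace Pool.Agent.H40.SHN

section

variable {X : Type} [AddCommGroup X]

/-- the elements killed by `3 ^ m` -/
def T3m (X : Type) [AddCommGroup X] (m : ℕ) : AddSubgroup X := (nsmulAddMonoidHom (α := X) (3 ^ m)).ker

lemma mem_T {m : ℕ} {x : X} : x ∈ T3m X m ↔ 3 ^ m • x = 0 := Iff.rfl

lemma mem_T0 {x : X} : x ∈ T3m X 0 ↔ x = 0 := by
  rw [mem_T, pow_zero, one_nsmul]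

lemma T_mono {m m' : ℕ} (h : m ≤ m') {x : X} (hx : x ∈ T3m X m) : x ∈ T3m X m' := by
  obtain ⟨d, rfl⟩ := Nat.exists_eq_add_of_le h
  rw [mem_T] at hx ⊢
  rw [pow_add, mul_comm, mul_nsmul', hx, nsmul_zero]

lemma T_three {m : ℕ} {x : X} (hx : x ∈ T3m X m) : (3 : ℕ) • x ∈ T3m X (m - 1) := by
  rcases m with _ | m
  · rw [mem_T0] at hx
    rw [hx, nsmul_zero]
    exact (T3m X _).zero_mem
  · rw [mem_T] at hx ⊢
    rw [Nat.add_sub_cancel, ← mul_nsmul', ← pow_succ, hx]

lemma T_map (f : X →+ X) {m : ℕ} {x : X} (hx : x ∈ T3m X m) : f x ∈ T3m X m := by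
  rw [mem_T] at hx ⊢
  rw [← map_nsmul, hx, map_zero]

/-- the iterates as homomorphisms -/
lemma iter_hom (s : X →+ X) (i : ℕ) : ∃ f : X →+ X, ∀ x, f x = s^[i] x := by
  induction i with
  | zero => exact ⟨AddMonoidHom.id X, fun x => rfl⟩
  | succ i ih =>
    obtain ⟨f, hf⟩ := ih
    exact ⟨f.comp s, fun x => hf (s x)⟩

variable (s : X →+ X)

lemma iter_add (i : ℕ) (x y : X) : s^[i] (x + y) = s^[i] x + s^[i] y := by
  obtain ⟨f, hf⟩ := iter_hom s i
  rw [← hf, ← hf, ← hf, map_add]

lemma iter_sub (i : ℕ) (x y : X) : s^[i] (x - y) = s^[i] x - s^[i] y := by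
  obtain ⟨f, hf⟩ := iter_hom s i
  rw [← hf, ← hf, ← hf, map_sub]

lemma iter_mem (i : ℕ) {m : ℕ} {x : X} (hx : x ∈ T3m X m) : s^[i] x ∈ T3m X m := by
  obtain ⟨f, hf⟩ := iter_hom s i
  rw [← hf]
  exact T_map f hx

variable (hd : ∀ x, (3 : ℕ) • x = 0 → s x = x)

include hd in
/-- the powers of the automorphism are close to the identity -/
lemma delta_mem (k : ℕ) : ∀ (m : ℕ) (x : X), x ∈ T3m X m →
    s^[3 ^ k] x - x ∈ T3m X (m - (k + 1)) := by
  induction k with
  | zero =>
    intro m x hx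
    rcases m with _ | m
    · rw [mem_T0] at hx
      rw [hx, pow_zero, Function.iterate_one, map_zero, sub_zero]
      exact (T3m X _).zero_mem
    · have h1 : s (3 ^ m • x) = 3 ^ m • x := hd _ (by rw [← mul_nsmul', ← pow_succ']; exact hx)
      rw [mem_T, pow_zero, Function.iterate_one, zero_add, Nat.add_sub_cancel, nsmul_sub,
        ← map_nsmul, h1, sub_self]
  | succ k ih =>
    intro m x hx
    set t := s^[3 ^ k] with ht
    have h3 : s^[3 ^ (k + 1)] x = t (t (t x)) := by
      have e : 3 ^ (k + 1) = 3 ^ k + (3 ^ k + 3 ^ k) := by ring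
      rw [e, Function.iterate_add_apply, Function.iterate_add_apply]
    have hts : ∀ y z, t (y - z) = t y - t z := fun y z => iter_sub s _ y z
    set d := t x - x with hdd
    have hd1 := ih m x hx
    have hd2 := ih _ _ hd1
    have hd3 := ih _ _ hd2
    have e : t (t (t x)) - x = (3 : ℕ) • d + (3 : ℕ) • (t d - d) + (t (t d - d) - (t d - d)) := by
      rw [hdd]
      simp only [hts]
      abel
    rw [h3, e]
    refine (T3m X _).add_mem ((T3m X _).add_mem ?_ ?_) ?_
    · exact T_mono (by omega) (T_three hd1)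
    · exact T_mono (by omega) (T_three hd2)
    · exact T_mono (by omega) hd3

include hd in
/-- the norm is close to the multiplication by its degree -/
lemma norm_mem (k : ℕ) : ∀ (m : ℕ) (x : X), x ∈ T3m X m →
    ∑ i ∈ Finset.range (3 ^ k), (s^[i]) x - 3 ^ k • x ∈ T3m X (m - (k + 1)) := by
  induction k with
  | zero =>
    intro m x hx
    rw [pow_zero, Finset.sum_range_one, Function.iterate_zero, id_eq, one_nsmul, sub_self]
    exact (T3m X _).zero_mem
  | succ k ih =>
    intro m x hx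
    set t := s^[3 ^ k] with ht
    set N : X → X := fun x => ∑ i ∈ Finset.range (3 ^ k), (s^[i]) x with hN
    have hNm : ∀ {m : ℕ} {x : X}, x ∈ T3m X m → N x ∈ T3m X m := fun hx =>
      AddSubgroup.sum_mem _ fun i _ => iter_mem s i hx
    have hts : ∀ y z, t (y - z) = t y - t z := fun y z => iter_sub s _ y z
    have htN : ∀ y, N (t y) = t (N y) := by
      intro y
      obtain ⟨f, hf⟩ := iter_hom s (3 ^ k)
      have e1 : t (N y) = f (∑ i ∈ Finset.range (3 ^ k), (s^[i]) y) := (hf _).symm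
      rw [e1, map_sum]
      change ∑ i ∈ Finset.range (3 ^ k), (s^[i]) (t y) = _
      refine Finset.sum_congr rfl fun i _ => ?_
      rw [hf, ht, ← Function.iterate_add_apply, ← Function.iterate_add_apply, add_comm]
    have e : ∑ i ∈ Finset.range (3 ^ (k + 1)), (s^[i]) x = N x + t (N x) + t (t (N x)) := by
      have e3 : 3 ^ (k + 1) = 3 ^ k + 3 ^ k + 3 ^ k := by ring
      rw [e3, Finset.sum_range_add, Finset.sum_range_add, ← htN, ← htN]
      have e5 : ∀ z, N z = ∑ i ∈ Finset.range (3 ^ k), (s^[i]) z := fun z => rfl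
      rw [e5, e5, e5]
      congr 1
      · congr 1
        refine Finset.sum_congr rfl fun i _ => ?_
        rw [ht, ← Function.iterate_add_apply, add_comm]
      · refine Finset.sum_congr rfl fun i _ => ?_
        rw [ht, ← Function.iterate_add_apply, ← Function.iterate_add_apply]
        congr 1
        ring
    have h0 := ih m x hx
    change N x - 3 ^ k • x ∈ _ at h0
    have h1 := hNm hx
    have h2 := delta_mem s hd k m _ h1
    have h3 := delta_mem s hd k _ _ h2
    change t (N x) - N x ∈ _ at h2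
    change t (t (N x) - N x) - (t (N x) - N x) ∈ _ at h3
    have e4 : N x + t (N x) + t (t (N x)) - 3 ^ (k + 1) • x =
        (3 : ℕ) • (N x - 3 ^ k • x) + (3 : ℕ) • (t (N x) - N x) +
          (t (t (N x) - N x) - (t (N x) - N x)) := by
      rw [hts, pow_succ', mul_nsmul', nsmul_sub]
      abel
    rw [e, e4]
    refine (T3m X _).add_mem ((T3m X _).add_mem ?_ ?_) ?_
    · exact T_mono (by omega) (T_three h0)
    · exact T_mono (by omega) (T_three h2)
    · exact T_mono (by omega) h3

/-- the number of the elements killed by `3 ^ m` -/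
lemma T_card {c : ℕ} (hc : Set.encard {x : X | (3 : ℕ) • x = 0} ≤ (c : ℕ∞)) (m : ℕ) :
    ((T3m X m : Set X)).Finite ∧ ((T3m X m : Set X)).ncard ≤ c ^ m := by
  classical
  have hf1 : {x : X | (3 : ℕ) • x = 0}.Finite := Set.finite_of_encard_le_coe hc
  have hn1 : {x : X | (3 : ℕ) • x = 0}.ncard ≤ c := by
    rw [← hf1.cast_ncard_eq] at hc
    exact_mod_cast hc
  induction m with
  | zero =>
    have e : ((T3m X 0 : Set X)) = {0} := Set.ext fun x => mem_T0
    rw [e, Set.ncard_singleton, pow_zero]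
    exact ⟨Set.finite_singleton _, le_rfl⟩
  | succ m ih =>
    obtain ⟨ihf, ihc⟩ := ih
    have hfib : ∀ y : X, (((3 : ℕ) • · : X → X) ⁻¹' {y}).Finite ∧
        (((3 : ℕ) • · : X → X) ⁻¹' {y}).ncard ≤ c := by
      intro y
      rcases Set.eq_empty_or_nonempty (((3 : ℕ) • · : X → X) ⁻¹' {y}) with h | ⟨x₀, hx₀⟩
      · rw [h]
        exact ⟨Set.finite_empty, by rw [Set.ncard_empty]; exact Nat.zero_le _⟩
      · have hx₀' : (3 : ℕ) • x₀ = y := hx₀
        have e : ((3 : ℕ) • · : X → X) ⁻¹' {y} = (fun z => x₀ + z) '' {x : X | (3 : ℕ) • x = 0} := by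
          ext x
          constructor
          · intro hx
            have hx' : (3 : ℕ) • x = y := hx
            refine ⟨x - x₀, ?_, add_sub_cancel _ _⟩
            change (3 : ℕ) • (x - x₀) = 0
            rw [nsmul_sub, hx', hx₀', sub_self]
          · rintro ⟨z, hz, rfl⟩
            have hz' : (3 : ℕ) • z = 0 := hz
            change (3 : ℕ) • (x₀ + z) = y
            rw [nsmul_add, hz', add_zero, hx₀']
        rw [e]
        exact ⟨hf1.image _, (Set.ncard_image_le hf1).trans hn1⟩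
    have e : ((T3m X (m + 1) : Set X)) = ((3 : ℕ) • · : X → X) ⁻¹' (T3m X m : Set X) := by
      ext x
      change 3 ^ (m + 1) • x = 0 ↔ 3 ^ m • ((3 : ℕ) • x) = 0
      rw [← mul_nsmul', ← pow_succ]
    have hfin : ((T3m X (m + 1) : Set X)).Finite := by
      rw [e]
      exact ihf.preimage' fun b _ => (hfib b).1
    refine ⟨hfin, ?_⟩
    have h1 := Finset.card_le_mul_card_image (f := ((3 : ℕ) • · : X → X)) hfin.toFinset c (fun b _ => by
      have h2 : ((hfin.toFinset.filter fun a => (3 : ℕ) • a = b : Finset X) : Set X) ⊆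
          ((3 : ℕ) • · : X → X) ⁻¹' {b} := by
        intro a ha
        rw [Finset.mem_coe, Finset.mem_filter] at ha
        exact ha.2
      have h3 := Set.ncard_le_ncard h2 (hfib b).1
      rw [Set.ncard_coe_finset] at h3
      exact h3.trans (hfib b).2)
    have h4 : (hfin.toFinset.image ((3 : ℕ) • · : X → X)) ⊆ ihf.toFinset := by
      intro y hy
      rw [Finset.mem_image] at hy
      obtain ⟨x, hx, rfl⟩ := hy
      rw [Set.Finite.mem_toFinset] at hx ⊢
      rw [e] at hx
      exact hx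
    have h5 := Finset.card_le_card h4
    rw [Set.ncard_eq_toFinset_card _ hfin, pow_succ']
    rw [Set.ncard_eq_toFinset_card _ ihf] at ihc
    exact h1.trans (Nat.mul_le_mul_left _ (h5.trans ihc))

/-- **a group with an automorphism of norm zero which is trivial on the elements of order three** -/
theorem grp_bound (s : X →+ X) (n c : ℕ)
    (hs : ∀ x : X, (∃ j : ℕ, 3 ^ j • x = 0) → ∑ i ∈ Finset.range (3 ^ n), (s^[i]) x = 0)
    (hd : ∀ x, (3 : ℕ) • x = 0 → s x = x) (hc : Set.encard {x : X | (3 : ℕ) • x = 0} ≤ (c : ℕ∞)) :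
    (∀ x : X, (∃ j : ℕ, 3 ^ j • x = 0) → 3 ^ n • x = 0) ∧
      Set.encard {x : X | ∃ j : ℕ, 3 ^ j • x = 0} ≤ (c : ℕ∞) ^ n := by
  have key : ∀ x : X, x ∈ T3m X (n + 1) → x ∈ T3m X n := by
    intro x hx
    have h1 := norm_mem s hd n _ x hx
    rw [hs x ⟨_, hx⟩, Nat.sub_self, mem_T0, zero_sub, neg_eq_zero] at h1
    exact h1
  have h1 : ∀ (j : ℕ) (x : X), x ∈ T3m X (n + j) → x ∈ T3m X n := by
    intro j
    induction j with
    | zero => exact fun x hx => hx
    | succ j ih =>
      intro x hx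
      refine ih x ?_
      have h2 : 3 ^ j • x ∈ T3m X (n + 1) := by
        rw [mem_T] at hx ⊢
        rw [← mul_nsmul', ← pow_add, show n + 1 + j = n + (j + 1) by ring]
        exact hx
      have h3 := key _ h2
      rw [mem_T, ← mul_nsmul', ← pow_add] at h3
      exact h3
  have h2 : ∀ x : X, (∃ j : ℕ, 3 ^ j • x = 0) → x ∈ T3m X n := by
    rintro x ⟨j, hj⟩
    exact h1 j x (T_mono (Nat.le_add_left _ _) hj)
  refine ⟨h2, ?_⟩
  have e : {x : X | ∃ j : ℕ, 3 ^ j • x = 0} = (T3m X n : Set X) :=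
    Set.ext fun x => ⟨fun h => h2 x h, fun h => ⟨n, h⟩⟩
  obtain ⟨hf, hn⟩ := T_card hc n
  rw [e, ← hf.cast_ncard_eq]
  exact_mod_cast hn

end

end Pool.Agent.H40.SHN
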