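import Mathlib
import Pool.Agent.H40.SHN.Fin

/-!
# The Galois group acts on the Tate-Shafarevich group of `y² + y = x³`, and the norm, II
-/

set_option autoImplicit false

namespace Pool.Agent.H40.SHN

open WeierstrassCurve IsDedekindDomain NumberField
open Pool.Agent.Q7.CE (ED)
open Pool.Agent.TH841.SH.D (Coch Pt act Gal IsCoc IsCob LocTriv cob)
open Pool.Agent.TH841.NF.D (Sha IsShaCoc shaCoc)

section twist

variable {k : Type} [Field k]

/-- the twist `t ↦ s (f (s⁻¹ t s))` of a cochain by an automorphism `s` of the algebraic closure -/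
noncomputable def twC (s : RingAut (AlgebraicClosure k)) (f : Coch (ED (1 : k))) :
    Coch (ED (1 : k)) := bk (tw s (ex f))

/-- the formula for the twist -/
lemma twC_apply (s : RingAut (AlgebraicClosure k)) (f : Coch (ED (1 : k))) (t t' : Gal k)
    (h : ∀ a, s (t' a) = t (s a)) :
    cv k (AlgebraicClosure k) (twC s f t) =
      pm (RingEquiv.toRingHom s) (cv k (AlgebraicClosure k) (f t')) := by
  unfold twC
  rw [cv_bk, tw_apply]
  have e : cj (s : AlgebraicClosure k ≃+* AlgebraicClosure k) (ofG t) = ofG t' := by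
    apply RingEquiv.ext
    intro a
    apply (s : AlgebraicClosure k ≃+* AlgebraicClosure k).injective
    rw [cj_apply]
    exact (h a).symm
  rw [e, ex_ofG]
  rfl

lemma ex_add (f g : Coch (ED (1 : k))) : ex (f + g) = ex f + ex g := by
  funext x
  rw [Pi.add_apply]
  by_cases hx : x ∈ HF k (AlgebraicClosure k)
  · rw [ex_of hx, ex_of hx, ex_of hx, ← map_add]
    rfl
  · unfold ex
    rw [dif_neg hx, dif_neg hx, dif_neg hx, add_zero]

lemma ex_zero : ex (0 : Coch (ED (1 : k))) = 0 := by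
  have h := ex_add (0 : Coch (ED (1 : k))) 0
  rw [add_zero] at h
  exact left_eq_add.1 h

lemma ex_nsmul (n : ℕ) (f : Coch (ED (1 : k))) : ex (n • f) = n • ex f := by
  induction n with
  | zero => rw [zero_nsmul, zero_nsmul, ex_zero]
  | succ n ih => rw [succ_nsmul, succ_nsmul, ex_add, ih]

lemma tw_add {Λ Λ' : Type} [Field Λ] [Field Λ'] (e : Λ ≃+* Λ') (u v : RingAut Λ → EP Λ) :
    tw e (u + v) = tw e u + tw e v := by
  funext x
  rw [Pi.add_apply, tw_apply, tw_apply, tw_apply, Pi.add_apply, map_add]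

lemma bk_add (u v : RingAut (AlgebraicClosure k) → EP (AlgebraicClosure k)) :
    bk (u + v) = bk u + bk v := by
  funext σ
  apply (cv k (AlgebraicClosure k)).injective
  change _ = cv k (AlgebraicClosure k) (bk u σ + bk v σ)
  rw [map_add, cv_bk, cv_bk, cv_bk]
  rfl

lemma twC_add (s : RingAut (AlgebraicClosure k)) (f g : Coch (ED (1 : k))) :
    twC s (f + g) = twC s f + twC s g := by
  unfold twC
  rw [ex_add, tw_add, bk_add]

lemma cob_add {Λ : Type} [Field Λ] {H : Subgroup (RingAut Λ)} {u v : RingAut Λ → EP Λ}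
    (hu : Cob H u) (hv : Cob H v) : Cob H (u + v) := by
  obtain ⟨P, hP⟩ := hu
  obtain ⟨Q, hQ⟩ := hv
  refine ⟨P + Q, fun x hx => ?_⟩
  rw [Pi.add_apply, hP x hx, hQ x hx, map_add]
  abel

variable {s s' : RingAut (AlgebraicClosure k)} {s₀ : k ≃+* k}

lemma cj_mem' (hs : ∀ x : k, s (algebraMap k _ x) = algebraMap k _ (s₀ x)) :
    ∀ x ∈ HF k (AlgebraicClosure k), cj s x ∈ HF k (AlgebraicClosure k) := by
  intro x hx a
  apply (s : AlgebraicClosure k ≃+* AlgebraicClosure k).injective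
  rw [cj_apply]
  change x (s (algebraMap k _ a)) = s (algebraMap k _ a)
  rw [hs, hx]

lemma twC_cob (hs : ∀ x : k, s (algebraMap k _ x) = algebraMap k _ (s₀ x)) {f : Coch (ED (1 : k))}
    (hf : IsCob (ED (1 : k)) f) : IsCob (ED (1 : k)) (twC s f) := by
  rw [isCob_iff] at hf ⊢
  exact (hf.tw (H' := HF k _) (cj_mem' hs)).congr fun x hx => ex_bk hx

lemma twC_mul (hs : ∀ x : k, s (algebraMap k _ x) = algebraMap k _ (s₀ x)) (s' : RingAut (AlgebraicClosure k))
    (f : Coch (ED (1 : k))) :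
    twC s (twC s' f) = twC (s * s') f := by
  unfold twC
  have e : bk (tw s (ex (bk (tw s' (ex f))))) = bk (tw s (tw s' (ex f))) := by
    funext σ
    apply (cv k (AlgebraicClosure k)).injective
    rw [cv_bk, cv_bk, tw_apply, tw_apply, ex_bk (cj_mem' hs _ (ofG_mem σ))]
  rw [e, tw_tw]
  rfl

lemma twC_one (f : Coch (ED (1 : k))) : twC 1 f = f := by
  unfold twC
  have : tw (1 : RingAut (AlgebraicClosure k)) (ex f) = ex f := tw_refl _
  rw [this, bk_ex]

/-- the class of the twist depends only on the automorphism of the base field -/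
lemma twC_congr (hs : ∀ x : k, s (algebraMap k _ x) = algebraMap k _ (s₀ x))
    (hs' : ∀ x : k, s' (algebraMap k _ x) = algebraMap k _ (s₀ x)) {f : Coch (ED (1 : k))}
    (hf : IsCoc (ED (1 : k)) f) : IsCob (ED (1 : k)) (twC s f - twC s' f) := by
  set h : RingAut (AlgebraicClosure k) := s'⁻¹ * s with hh
  have hh1 : h ∈ HF k (AlgebraicClosure k) := by
    intro a
    rw [hh, RingAut.mul_apply, hs, ← hs']
    exact (s' : AlgebraicClosure k ≃+* AlgebraicClosure k).symm_apply_apply _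
  have hh2 : ∀ x : k, h (algebraMap k _ x) = algebraMap k _ ((RingEquiv.refl k) x) := hh1
  have h1 : Cob (HF k (AlgebraicClosure k)) (tw h (ex f) - ex f) :=
    ((isCoc_iff f).1 hf).tw_self hh1 (cj_mem' hh2)
  have h2 : IsCob (ED (1 : k)) (twC h f - f) := by
    obtain ⟨P, hP⟩ := h1
    refine ⟨(cv k _).symm P, fun σ => ?_⟩
    apply (cv k (AlgebraicClosure k)).injective
    rw [map_sub, cv_pa, AddEquiv.apply_symm_apply, ← hP _ (ofG_mem σ)]
    change cv k (AlgebraicClosure k) (twC h f σ - f σ) = _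
    rw [map_sub, ← ex_ofG f]
    unfold twC
    rw [cv_bk]
    rfl
  have h3 := twC_cob hs' h2
  have h4 : twC s' (twC h f - f) = twC s f - twC s' f := by
    have h5 := twC_add s' (twC h f - f) f
    rw [sub_add_cancel, twC_mul hs'] at h5
    have h6 : s' * h = s := by rw [hh, mul_inv_cancel_left]
    rw [h6] at h5
    rw [h5, add_sub_cancel_right]
  rwa [h4] at h3

end twist

section sha

variable {K : Type} [Field K] [NumberField K] [IsTotallyComplex K]

theorem twC_sha {s : RingAut (AlgebraicClosure K)} {s₀ : K ≃+* K}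
    (hs : ∀ x : K, s (algebraMap K _ x) = algebraMap K _ (s₀ x)) {f : Coch (ED (1 : K))}
    (hf : IsShaCoc (ED (1 : K)) f) : IsShaCoc (ED (1 : K)) (twC s f) := by
  rw [isShaCoc_iff] at hf ⊢
  exact (hf.tw hs).congr fun x hx => ex_bk hx

/-- the class of a cocycle -/
noncomputable def cl {f : Coch (ED (1 : K))} (hf : IsShaCoc (ED (1 : K)) f) : Sha (ED (1 : K)) :=
  QuotientAddGroup.mk (⟨f, hf⟩ : shaCoc (ED (1 : K)))

omit [IsTotallyComplex K] in
lemma cl_surj (x : Sha (ED (1 : K))) : ∃ (f : Coch (ED (1 : K))) (hf : IsShaCoc (ED (1 : K)) f),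
    x = cl hf := by
  obtain ⟨⟨f, hf⟩, rfl⟩ := QuotientAddGroup.mk_surjective x
  exact ⟨f, hf, rfl⟩

omit [IsTotallyComplex K] in
lemma cl_eq_zero {f : Coch (ED (1 : K))} (hf : IsShaCoc (ED (1 : K)) f) :
    cl hf = 0 ↔ IsCob (ED (1 : K)) f :=
  QuotientAddGroup.eq_zero_iff (N := (cob (ED (1 : K))).addSubgroupOf (shaCoc (ED (1 : K))))
    (⟨f, hf⟩ : shaCoc (ED (1 : K)))

omit [IsTotallyComplex K] in
lemma cl_add {f g : Coch (ED (1 : K))} (hf : IsShaCoc (ED (1 : K)) f)
    (hg : IsShaCoc (ED (1 : K)) g) (hfg : IsShaCoc (ED (1 : K)) (f + g)) :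
    cl hfg = cl hf + cl hg := rfl

omit [IsTotallyComplex K] in
lemma cl_eq {f g : Coch (ED (1 : K))} (hf : IsShaCoc (ED (1 : K)) f)
    (hg : IsShaCoc (ED (1 : K)) g) : cl hf = cl hg ↔ IsCob (ED (1 : K)) (f - g) := by
  have h1 : IsShaCoc (ED (1 : K)) (f - g) := (shaCoc (ED (1 : K))).sub_mem hf hg
  rw [← cl_eq_zero h1]
  have h2 : cl h1 = cl hf - cl hg := rfl
  rw [h2, sub_eq_zero]

/-- the action of an automorphism of `K` on the Tate-Shafarevich group -/
noncomputable def sg (γ : K ≃+* K) : Sha (ED (1 : K)) →+ Sha (ED (1 : K)) :=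
  QuotientAddGroup.map _ _
    (AddMonoidHom.mk' (fun f : shaCoc (ED (1 : K)) =>
      (⟨twC (lift_ex γ).choose f.1, twC_sha (lift_ex γ).choose_spec f.2⟩ : shaCoc (ED (1 : K))))
      (fun f g => Subtype.ext (twC_add _ f.1 g.1)))
    (fun _ hf => twC_cob (lift_ex γ).choose_spec hf)

/-- **the formula for the action**: `s` is any extension of `γ` -/
theorem sg_cl {γ : K ≃+* K} {s : RingAut (AlgebraicClosure K)}
    (hs : ∀ x : K, s (algebraMap K _ x) = algebraMap K _ (γ x)) {f : Coch (ED (1 : K))}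
    (hf : IsShaCoc (ED (1 : K)) f) : sg γ (cl hf) = cl (twC_sha hs hf) := by
  change cl (twC_sha (lift_ex γ).choose_spec hf) = _
  rw [cl_eq]
  exact twC_congr (lift_ex γ).choose_spec hs hf.1

theorem sg_one (x : Sha (ED (1 : K))) : sg (RingEquiv.refl K) x = x := by
  obtain ⟨f, hf, rfl⟩ := cl_surj x
  rw [sg_cl (s := 1) (fun x => rfl)]
  congr 1
  exact twC_one f

theorem sg_mul (γ γ' : K ≃+* K) (x : Sha (ED (1 : K))) : sg (γ'.trans γ) x = sg γ (sg γ' x) := by
  obtain ⟨f, hf, rfl⟩ := cl_surj x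
  obtain ⟨s, hs⟩ := lift_ex γ
  obtain ⟨s', hs'⟩ := lift_ex γ'
  rw [sg_cl hs', sg_cl hs, sg_cl (s := s * s') (fun x => by rw [RingAut.mul_apply, hs', hs]; rfl)]
  congr 1
  exact (twC_mul hs s' f).symm

end sha

section norm

variable {F K : Type} [Field F] [NumberField F] [Field K] [NumberField K] [Algebra F K]
  [IsGalois F K] [IsTotallyComplex F] [IsTotallyComplex K]

/-- **the norm kills the 3-primary part of the Tate-Shafarevich group of the extension if that of
the base field is trivial** -/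
theorem norm_sg (hF : ∀ (n : ℕ) (x : Sha (ED (1 : F))), 3 ^ n • x = 0 → x = 0)
    (x : Sha (ED (1 : K))) (j : ℕ) (hx : 3 ^ j • x = 0) :
    ∑ γ : K ≃ₐ[F] K, sg (γ : K ≃+* K) x = 0 := by
  have hF' : ∀ u₀, ShaC F u₀ → ∀ j : ℕ, Cob (HF F _) (3 ^ j • u₀) → Cob (HF F _) u₀ := by
    intro u₀ h0 j h1
    have h2 : IsShaCoc (ED (1 : F)) (bk u₀) := by
      rw [isShaCoc_iff]
      exact h0.congr fun x hx => ex_bk hx
    have h3 : 3 ^ j • cl h2 = 0 := by
      have h4 : IsShaCoc (ED (1 : F)) (3 ^ j • bk u₀) := (shaCoc (ED (1 : F))).nsmul_mem h2 _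
      have h5 : 3 ^ j • cl h2 = cl h4 := rfl
      rw [h5, cl_eq_zero, isCob_iff, ex_nsmul]
      refine h1.congr fun x hx => ?_
      rw [Pi.smul_apply, Pi.smul_apply, ex_bk hx]
    have h6 := hF j _ h3
    rw [cl_eq_zero, isCob_iff] at h6
    exact h6.congr fun x hx => (ex_bk hx).symm
  obtain ⟨f, hf, rfl⟩ := cl_surj x
  have h1 : IsCob (ED (1 : K)) (3 ^ j • f) := by
    have h4 : IsShaCoc (ED (1 : K)) (3 ^ j • f) := (shaCoc (ED (1 : K))).nsmul_mem hf _
    exact (cl_eq_zero h4).1 hx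
  rw [isCob_iff, ex_nsmul] at h1
  have h2 := norm_cob (F := F) (K := K) hF' ((isShaCoc_iff f).1 hf) j h1
  have h3 : ∀ S : Finset (K ≃ₐ[F] K), ∃ h : IsShaCoc (ED (1 : K)) (∑ γ ∈ S, twC (lf F K γ) f),
      ∑ γ ∈ S, sg (γ : K ≃+* K) (cl hf) = cl h := by
    classical
    intro S
    induction S using Finset.induction_on with
    | empty => exact ⟨(shaCoc (ED (1 : K))).zero_mem, rfl⟩
    | insert γ S hγ ih =>
      obtain ⟨h, e⟩ := ih
      have h4 : IsShaCoc (ED (1 : K)) (twC (lf F K γ) f) := twC_sha (s₀ := (γ : K ≃+* K))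
        (lf_spec γ) hf
      have h5 : IsShaCoc (ED (1 : K)) (twC (lf F K γ) f + ∑ γ ∈ S, twC (lf F K γ) f) :=
        (shaCoc (ED (1 : K))).add_mem h4 h
      have h6 : twC (lf F K γ) f + ∑ γ ∈ S, twC (lf F K γ) f =
          ∑ γ ∈ insert γ S, twC (lf F K γ) f := by rw [Finset.sum_insert hγ]
      refine ⟨h6 ▸ h5, ?_⟩
      rw [Finset.sum_insert hγ, e, sg_cl (γ := (γ : K ≃+* K)) (lf_spec γ) hf, ← cl_add h4 h h5]
      congr 1
  obtain ⟨h4, e⟩ := h3 Finset.univ
  rw [e, cl_eq_zero, isCob_iff]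
  refine h2.congr fun x hx => ?_
  rw [Finset.sum_apply]
  have h5 : ∀ S : Finset (K ≃ₐ[F] K), ex (∑ γ ∈ S, twC (lf F K γ) f) x =
      ∑ γ ∈ S, tw (lf F K γ) (ex f) x := by
    classical
    intro S
    induction S using Finset.induction_on with
    | empty =>
      rw [Finset.sum_empty, Finset.sum_empty, ex_zero]
      rfl
    | insert γ S hγ ih =>
      rw [Finset.sum_insert hγ, Finset.sum_insert hγ, ex_add, Pi.add_apply, ih]
      congr 1
      exact ex_bk hx
  exact h5 _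

/-- the cyclic case -/
theorem norm_sg_cyclic (hF : ∀ (n : ℕ) (x : Sha (ED (1 : F))), 3 ^ n • x = 0 → x = 0)
    (γ : K ≃ₐ[F] K) (hγ : ∀ g : K ≃ₐ[F] K, g ∈ Subgroup.zpowers γ)
    (x : Sha (ED (1 : K))) (j : ℕ) (hx : 3 ^ j • x = 0) :
    ∑ i ∈ Finset.range (Module.finrank F K), (sg (γ : K ≃+* K))^[i] x = 0 := by
  classical
  have h1 := norm_sg hF x j hx
  have h2 : orderOf γ = Module.finrank F K := by
    rw [orderOf_eq_card_of_forall_mem_zpowers hγ, IsGalois.card_aut_eq_finrank]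
  have h3 : ∀ i : ℕ, (sg (γ : K ≃+* K))^[i] x = sg ((γ ^ i : K ≃ₐ[F] K) : K ≃+* K) x := by
    intro i
    induction i with
    | zero => exact (sg_one x).symm
    | succ i ih =>
      rw [Function.iterate_succ_apply', ih, ← sg_mul, pow_succ']
      rfl
  rw [← IsCyclic.image_range_orderOf hγ, Finset.sum_image, h2] at h1
  · rw [← h1]
    exact Finset.sum_congr rfl fun i _ => h3 i
  · intro i hi i' hi' h
    rw [Finset.coe_range, Set.mem_Iio] at hi hi'
    exact pow_injOn_Iio_orderOf hi hi' h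

end norm

end Pool.Agent.H40.SHN
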